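import Pool.Agent.Helper5.PH.Defs

/-!
# Structured words: elementary facts
-/

set_option autoImplicit false

namespace Pool.Agent.Helper5.PH

open Pool.Agent.Helper25.PF

lemma pl_mod (K : ℕ) (D : ℕ → ℕ) (s : ℕ) : pl K D s % 3 = s % 3 := by
  unfold pl
  omega

lemma pl_div (K : ℕ) (D : ℕ → ℕ) (s : ℕ) : pl K D s / 21 = s / 21 % K := by
  unfold pl
  have h1 := Nat.mod_lt (s % 21 / 3 + (s / 21 / K % 2 + 2 * D (s / 21)) + sg (s / 21 / K) (s % 3))
    (show 0 < 7 by norm_num)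
  have h2 := Nat.mod_lt s (show 0 < 3 by norm_num)
  generalize (s % 21 / 3 + (s / 21 / K % 2 + 2 * D (s / 21)) + sg (s / 21 / K) (s % 3)) % 7 = x at *
  generalize s / 21 % K = y at *
  omega

lemma pl_lt {K : ℕ} (hK : 1 ≤ K) (D : ℕ → ℕ) (s : ℕ) : pl K D s < 21 * K := by
  have h1 := pl_div K D s
  have h2 := Nat.mod_lt (s / 21) (show 0 < K by omega)
  rw [← h1] at h2
  omega

lemma pl_row0 {K : ℕ} {D : ℕ → ℕ} (hD : Dig K D) {s : ℕ} (hs : s < 21 * K) : pl K D s = s := by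
  have hK : 0 < K := by
    rcases Nat.eq_zero_or_pos K with h | h
    · rw [h] at hs
      omega
    · exact h
  have h1 : s / 21 < K := by omega
  have h2 : s / 21 / K = 0 := Nat.div_eq_of_lt h1
  have h3 : s / 21 % K = s / 21 := Nat.mod_eq_of_lt h1
  have h4 : D (s / 21) = 0 := hD.zero _ (by omega)
  have h5 : ∀ τ, sg 0 τ = 0 := by
    intro τ
    unfold sg
    split_ifs <;> rfl
  unfold pl
  rw [h2, h3, h4, h5]
  omega

/-- The place at time `s + 21 K`, `s < 21 K`, is in the same slot as `s`. -/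
lemma pl_row1_div {K : ℕ} (D : ℕ → ℕ) {s : ℕ} (hs : s < 21 * K) :
    pl K D (s + 21 * K) / 21 = s / 21 := by
  rw [pl_div, Nat.add_mul_div_left _ _ (show 0 < 21 by norm_num), Nat.add_mod_right]
  exact Nat.mod_eq_of_lt (by omega)

lemma KF_iff_KFn {α : Type} (e : ℕ → ℕ) (u : List α) :
    KF e u ↔ KFn e (fun i => u[i]?) u.length := Iff.rfl

/-- Two words that agree below `n`. -/
lemma KFn.congr {γ : Type} {e : ℕ → ℕ} {u v : ℕ → γ} {n : ℕ} (h : ∀ i, i < n → u i = v i)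
    (hu : KFn e u n) : KFn e v n := by
  intro p hp s hs
  obtain ⟨i, hi, hne⟩ := hu p hp s hs
  refine ⟨i, hi, ?_⟩
  rw [← h _ (by omega), ← h _ (by omega)]
  exact hne

lemma KFn.mono {γ : Type} {e : ℕ → ℕ} {u : ℕ → γ} {m n : ℕ} (hmn : m ≤ n)
    (hu : KFn e u n) : KFn e u m := by
  intro p hp s hs
  exact hu p hp s (by omega)

end Pool.Agent.Helper5.PH
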