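import Pool.Agent.Helper5.PH.Defs

/-!
# Labellings are connected by steps
-/

set_option autoImplicit false

namespace Pool.Agent.Helper5.PH

lemma step_update {α : Type} [DecidableEq α] {N : ℕ} {ty : α → ℕ} {lam : ℕ → α}
    (hlam : Lab N ty lam) {P : ℕ} {s : α} (hs : ty s = P % 3)
    (hun : ∀ c, c < N → lam c ≠ s) : Step N ty lam (Function.update lam P s) := by
  refine ⟨hlam, ⟨?_, ?_⟩, P, ?_, Or.inl ?_⟩
  · intro c hc
    by_cases h : c = P
    · subst h
      rw [Function.update_self]
      exact hs
    · rw [Function.update_of_ne h]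
      exact hlam.typ c hc
  · intro c hc c' hc' h
    by_cases h1 : c = P
    · by_cases h2 : c' = P
      · rw [h1, h2]
      · rw [h1, Function.update_self, Function.update_of_ne h2] at h
        exact absurd h.symm (hun c' hc')
    · by_cases h2 : c' = P
      · rw [h2, Function.update_self, Function.update_of_ne h1] at h
        exact absurd h (hun c hc)
      · rw [Function.update_of_ne h1, Function.update_of_ne h2] at h
        exact hlam.inj c hc c' hc' h
  · intro c _ hcP
    exact Function.update_of_ne hcP _ _
  · rw [Function.update_self]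
    exact hun

lemma exists_unused {α : Type} [Fintype α] [DecidableEq α] {N : ℕ} (hN3 : 3 ∣ N) (ty : α → ℕ)
    (hcard : ∀ c, c < 3 → N / 3 < (Finset.univ.filter (fun a => ty a = c)).card)
    {lam : ℕ → α} (hlam : Lab N ty lam) (r : ℕ) (hr : r < 3) :
    ∃ s, ty s = r ∧ ∀ c, c < N → lam c ≠ s := by
  obtain ⟨m, rfl⟩ := hN3
  have h1 : ((Finset.range m).image (fun i => lam (3 * i + r))).card ≤ m :=
    Finset.card_image_le.trans (by simp)
  have h2 := hcard r hr
  have h3 : 3 * m / 3 = m := by omega
  rw [h3] at h2
  obtain ⟨s, hs1, hs2⟩ := Finset.exists_mem_notMem_of_card_lt_card (h1.trans_lt h2)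
  refine ⟨s, (Finset.mem_filter.mp hs1).2, ?_⟩
  intro c hc hcs
  have h4 := hlam.typ c hc
  rw [hcs, (Finset.mem_filter.mp hs1).2] at h4
  apply hs2
  rw [Finset.mem_image]
  refine ⟨c / 3, Finset.mem_range.mpr (by omega), ?_⟩
  have : 3 * (c / 3) + r = c := by omega
  rw [this, hcs]

/-- Module CH. Labellings are connected by steps. -/
theorem chain {α : Type} [Fintype α] [DecidableEq α] {N : ℕ} (hN3 : 3 ∣ N) (ty : α → ℕ)
    (hcard : ∀ c, c < 3 → N / 3 < (Finset.univ.filter (fun a => ty a = c)).card)
    {lam mu : ℕ → α} (hlam : Lab N ty lam) (hmu : Lab N ty mu) :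
    ∃ mu' : ℕ → α, (∀ c, c < N → mu' c = mu c) ∧ Lab N ty mu' ∧
      Relation.ReflTransGen (Step N ty) lam mu' := by
  suffices H : ∀ k, ∀ lam : ℕ → α, Lab N ty lam →
      ((Finset.range N).filter (fun c => lam c ≠ mu c)).card ≤ k →
      ∃ mu' : ℕ → α, (∀ c, c < N → mu' c = mu c) ∧ Lab N ty mu' ∧
        Relation.ReflTransGen (Step N ty) lam mu' from H _ lam hlam le_rfl
  intro k
  induction k with
  | zero =>
    intro lam hlam hk
    refine ⟨lam, ?_, hlam, Relation.ReflTransGen.refl⟩
    intro c hc
    by_contra hne
    have h1 : ((Finset.range N).filter (fun c => lam c ≠ mu c)) = ∅ :=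
      Finset.card_eq_zero.mp (by omega)
    have h2 : c ∈ ((Finset.range N).filter (fun c => lam c ≠ mu c)) :=
      Finset.mem_filter.mpr ⟨Finset.mem_range.mpr hc, hne⟩
    rw [h1] at h2
    exact absurd h2 (Finset.notMem_empty c)
  | succ k ih =>
    -- the case of an unused letter
    have caseA : ∀ lam : ℕ → α, Lab N ty lam → ∀ P, P < N → lam P ≠ mu P →
        (∀ c, c < N → lam c ≠ mu P) →
        ((Finset.range N).filter (fun c => lam c ≠ mu c)).card ≤ k + 1 →
        ∃ mu' : ℕ → α, (∀ c, c < N → mu' c = mu c) ∧ Lab N ty mu' ∧
          Relation.ReflTransGen (Step N ty) lam mu' := by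
      intro lam hlam P hP hne hun hk
      have hst : Step N ty lam (Function.update lam P (mu P)) :=
        step_update hlam (hmu.typ P hP) hun
      obtain ⟨mu', h1, h2, h3⟩ := ih (Function.update lam P (mu P)) hst.2.1 (by
        have hss : ((Finset.range N).filter (fun c => Function.update lam P (mu P) c ≠ mu c)) ⊂
            ((Finset.range N).filter (fun c => lam c ≠ mu c)) := by
          rw [Finset.ssubset_iff_of_subset]
          · refine ⟨P, Finset.mem_filter.mpr ⟨Finset.mem_range.mpr hP, hne⟩, ?_⟩
            intro hmem
            have := (Finset.mem_filter.mp hmem).2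
            rw [Function.update_self] at this
            exact this rfl
          · intro c hc
            rw [Finset.mem_filter] at hc ⊢
            refine ⟨hc.1, ?_⟩
            by_cases hcP : c = P
            · rw [hcP]
              exact hne
            · have := hc.2
              rw [Function.update_of_ne hcP] at this
              exact this
        have := Finset.card_lt_card hss
        omega)
      exact ⟨mu', h1, h2, Relation.ReflTransGen.head hst h3⟩
    intro lam hlam hk
    by_cases hall : ∀ c, c < N → lam c = mu c
    · exact ⟨lam, hall, hlam, Relation.ReflTransGen.refl⟩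
    push Not at hall
    obtain ⟨P, hP, hne⟩ := hall
    by_cases hun : ∀ c, c < N → lam c ≠ mu P
    · exact caseA lam hlam P hP hne hun hk
    push Not at hun
    obtain ⟨Q, hQ, hQP⟩ := hun
    have hPQ : P ≠ Q := by
      rintro rfl
      exact hne hQP
    have hQne : lam Q ≠ mu Q := by
      intro h
      rw [h] at hQP
      exact hPQ (hmu.inj Q hQ P hP hQP).symm
    obtain ⟨s, hs1, hs2⟩ := exists_unused hN3 ty hcard hlam (Q % 3) (by omega)
    have hst : Step N ty lam (Function.update lam Q s) := step_update hlam hs1 hs2
    obtain ⟨mu', h1, h2, h3⟩ := caseA (Function.update lam Q s) hst.2.1 P hP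
      (by rw [Function.update_of_ne hPQ]; exact hne)
      (by
        intro c hc h
        by_cases hcQ : c = Q
        · rw [hcQ, Function.update_self] at h
          rw [← hQP] at h
          exact hs2 Q hQ h.symm
        · rw [Function.update_of_ne hcQ, ← hQP] at h
          exact hcQ (hlam.inj c hc Q hQ h))
      (by
        refine le_trans (Finset.card_le_card ?_) hk
        intro c hc
        rw [Finset.mem_filter] at hc ⊢
        refine ⟨hc.1, ?_⟩
        by_cases hcQ : c = Q
        · rw [hcQ]
          exact hQne
        · have := hc.2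
          rw [Function.update_of_ne hcQ] at this
          exact this)
    exact ⟨mu', h1, h2, Relation.ReflTransGen.head hst h3⟩

end Pool.Agent.Helper5.PH
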