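import Pool.Agent.Helper25.PGMain

/-!
# Structured words: definitions

Rows of `N = 21 K` letters; slot `i` of a row contains the letters with places
`21 i, …, 21 i + 20`; the place is congruent to the type modulo `3`.
-/

set_option autoImplicit false

namespace Pool.Agent.Helper5.PH

open Pool.Agent.Helper25.PF

/-- Shift of the letters of type `τ` in row `t`. -/
def sg (t τ : ℕ) : ℕ := if τ = 0 then 0 else if τ = 1 then t % 7 else 2 * (t % 7) + t / 7 % 7

/-- The place (a number below `21 K`) used at time `s`. -/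
def pl (K : ℕ) (D : ℕ → ℕ) (s : ℕ) : ℕ :=
  21 * (s / 21 % K) +
    3 * ((s % 21 / 3 + (s / 21 / K % 2 + 2 * D (s / 21)) + sg (s / 21 / K) (s % 3)) % 7) + s % 3

/-- Digit sequences. -/
structure Dig (K : ℕ) (D : ℕ → ℕ) : Prop where
  lt : ∀ β, D β < 3
  zero : ∀ β, β < 49 * K → D β = 0
  disp : ∀ a, 1 ≤ a → ∀ s, ∃ β, s ≤ β ∧ β ≤ s + 2 * a ∧ D β ≠ D (β + a * (49 * K))

/-- Types in the adversarial part, at distance `u` from its outer end. -/
def psi (u : ℕ) : ℕ := (2 + (u - u / 21)) % 3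

/-- Words (given by functions) in which no repetition at distance `p` is longer than `e p`. -/
def KFn {γ : Type} (e : ℕ → ℕ) (u : ℕ → γ) (n : ℕ) : Prop :=
  ∀ p, 1 ≤ p → ∀ s, s + p + (e p + 1) ≤ n → ∃ i, i ≤ e p ∧ u (s + i) ≠ u (s + p + i)

/-- Labellings of the places below `N` respecting types. -/
structure Lab {α : Type} (N : ℕ) (ty : α → ℕ) (lam : ℕ → α) : Prop where
  typ : ∀ c, c < N → ty (lam c) = c % 3
  inj : ∀ c, c < N → ∀ c', c' < N → lam c = lam c' → c = c'

/-- `lam'` differs from `lam` at most at one place, where a letter unused by `lam` is put. -/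
def Rep {γ : Type} (N : ℕ) (lam lam' : ℕ → γ) : Prop :=
  ∃ P, (∀ c, c < N → c ≠ P → lam' c = lam c) ∧
    ((∀ c, c < N → lam c ≠ lam' P) ∨ lam' P = lam P)

/-- One step between labellings. -/
def Step {α : Type} (N : ℕ) (ty : α → ℕ) (f g : ℕ → α) : Prop :=
  Lab N ty f ∧ Lab N ty g ∧ Rep N f g

end Pool.Agent.Helper5.PH
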