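import Pool.Agent.Helper5.PH.Defs

/-!
# Digit sequences exist
-/

set_option autoImplicit false

namespace Pool.Agent.Helper5.PH

lemma pv_eq {p : ℕ} (hp : p.Prime) (l u : ℕ) (hu : ¬ p ∣ u) : padicValNat p (p ^ l * u) = l := by
  have := Fact.mk hp
  have hu0 : u ≠ 0 := by
    rintro rfl
    exact hu (dvd_zero p)
  have hpl : p ^ l ≠ 0 := pow_ne_zero _ hp.ne_zero
  rw [padicValNat.mul hpl hu0, padicValNat.prime_pow, padicValNat.eq_zero_of_not_dvd hu, Nat.add_zero]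

/-- the digit sequence -/
def digD (M L β : ℕ) : ℕ :=
  (β / M / 3 ^ (if padicValNat 2 (β % M + 1) < L then padicValNat 2 (β % M + 1) else
    L + padicValNat 3 (β / M + 1))) % 3

lemma digit_ne (T l b : ℕ) (hb : ¬ 3 ∣ b) : T / 3 ^ l % 3 ≠ (T + 3 ^ l * b) / 3 ^ l % 3 := by
  have h3 : 0 < 3 ^ l := by positivity
  rw [Nat.add_mul_div_left _ _ h3]
  omega

lemma pow_ineq1 (l : ℕ) : 3 * 2 ^ l ≤ 2 * 3 ^ l + 2 := by
  induction l with
  | zero => norm_num
  | succ l ih =>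
    have h1 : 1 ≤ 3 ^ l := Nat.one_le_pow _ _ (by norm_num)
    have h2 : (2 : ℕ) ^ (l + 1) = 2 * 2 ^ l := by ring
    have h3 : (3 : ℕ) ^ (l + 1) = 3 * 3 ^ l := by ring
    omega

lemma pow_ineq2 (L : ℕ) (hL : 2 ≤ L) : 2 * 2 ^ L ≤ 3 ^ L := by
  obtain ⟨m, rfl⟩ : ∃ m, L = m + 2 := ⟨L - 2, by omega⟩
  induction m with
  | zero => norm_num
  | succ m ih =>
    have h2 : (2 : ℕ) ^ (m + 1 + 2) = 2 * 2 ^ (m + 2) := by ring
    have h3 : (3 : ℕ) ^ (m + 1 + 2) = 3 * 3 ^ (m + 2) := by ring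
    have := ih (by omega)
    omega

/-- small `l` -/
lemma disp_small {M L l b s : ℕ} (hlL : l < L) (hM : 2 ^ L ≤ M) (hb : ¬ 3 ∣ b) :
    ∃ β, s ≤ β ∧ β ≤ s + 2 * (3 ^ l * b) ∧ digD M L β ≠ digD M L (β + 3 ^ l * b * M) := by
  have hb1 : 1 ≤ b := by
    rcases Nat.eq_zero_or_pos b with h | h
    · rw [h] at hb
      exact absurd (dvd_zero 3) hb
    · exact h
  have ha : 3 ^ l ≤ 3 ^ l * b := Nat.le_mul_of_pos_right _ hb1
  have hpl : 0 < 2 ^ l := by positivity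
  have h2l : 2 ^ l ≤ M := (Nat.pow_le_pow_right (by norm_num) hlL.le).trans hM
  have hM0 : 0 < M := by omega
  have hi := pow_ineq1 l
  -- a block with the right phase
  obtain ⟨β, k, h1, h2, h3⟩ : ∃ β k, s ≤ β ∧ β ≤ s + (3 * 2 ^ l - 2) ∧
      β % M + 1 = 2 ^ l * (2 * k + 1) := by
    have hs := Nat.div_add_mod s M
    have hsm := Nat.mod_lt s hM0
    set ph := s % M with hph
    set T := s / M with hT
    set k := (ph + 2 ^ l) / (2 * 2 ^ l) with hk
    have hk1 := Nat.div_add_mod (ph + 2 ^ l) (2 * 2 ^ l)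
    have hk2 := Nat.mod_lt (ph + 2 ^ l) (show 0 < 2 * 2 ^ l by positivity)
    rw [← hk] at hk1
    -- g = 2^l (2k+1) is the next good number
    have hg : 2 ^ l * (2 * k + 1) = 2 * 2 ^ l * k + 2 ^ l := by ring
    by_cases hgM : 2 ^ l * (2 * k + 1) ≤ M
    · refine ⟨s + (2 ^ l * (2 * k + 1) - (ph + 1)), k, by omega, by omega, ?_⟩
      have e1 : s + (2 ^ l * (2 * k + 1) - (ph + 1)) = (2 ^ l * (2 * k + 1) - 1) + M * T := by
        omega
      rw [e1, Nat.add_mul_mod_self_left, Nat.mod_eq_of_lt (by omega)]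
      omega
    · refine ⟨s + (M - (ph + 1)) + 2 ^ l, 0, by omega, by omega, ?_⟩
      have e1 : s + (M - (ph + 1)) + 2 ^ l = (2 ^ l - 1) + M * (T + 1) := by
        have : M * (T + 1) = M * T + M := by ring
        omega
      rw [e1, Nat.add_mul_mod_self_left, Nat.mod_eq_of_lt (by omega)]
      omega
  refine ⟨β, h1, by omega, ?_⟩
  have hv : padicValNat 2 (β % M + 1) = l := by
    rw [h3]
    exact pv_eq Nat.prime_two l _ (by omega)
  have e1 : (β + 3 ^ l * b * M) % M = β % M := Nat.add_mul_mod_self_right _ _ _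
  have e2 : (β + 3 ^ l * b * M) / M = β / M + 3 ^ l * b := Nat.add_mul_div_right _ _ hM0
  unfold digD
  rw [e1, e2, hv, if_pos hlL, if_pos hlL]
  exact digit_ne _ _ _ hb

/-- large `l` -/
lemma disp_large {M L l b s : ℕ} (hlL : L ≤ l) (hL : 2 ≤ L) (hM : 2 ^ L ≤ M)
    (hM2 : M < 2 ^ (L + 1)) (hb : ¬ 3 ∣ b) :
    ∃ β, s ≤ β ∧ β ≤ s + 2 * (3 ^ l * b) ∧ digD M L β ≠ digD M L (β + 3 ^ l * b * M) := by
  have hb1 : 1 ≤ b := by
    rcases Nat.eq_zero_or_pos b with h | h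
    · rw [h] at hb
      exact absurd (dvd_zero 3) hb
    · exact h
  have ha : 3 ^ l ≤ 3 ^ l * b := Nat.le_mul_of_pos_right _ hb1
  obtain ⟨c, rfl⟩ : ∃ c, l = L + c := ⟨l - L, by omega⟩
  have hpL : 0 < 2 ^ L := by positivity
  have hM0 : 0 < M := by omega
  have h3c : 0 < 3 ^ c := by positivity
  -- the first epoch
  obtain ⟨T, hT1, hT2⟩ : ∃ T, s ≤ T * M + (2 ^ L - 1) ∧ T * M + (2 ^ L - 1) ≤ s + (M - 1) := by
    have hs := Nat.div_add_mod s M
    have hsm := Nat.mod_lt s hM0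
    have hc1 : M * (s / M) = s / M * M := Nat.mul_comm _ _
    rcases Nat.lt_or_ge (2 ^ L - 1) (s % M) with h | h
    · refine ⟨s / M + 1, ?_, ?_⟩
      · rw [Nat.add_mul]
        omega
      · rw [Nat.add_mul]
        omega
    · exact ⟨s / M, by omega, by omega⟩
  -- the next epoch with the right 3-adic value
  obtain ⟨T', u, hu, hTT, hT3, hT4⟩ : ∃ T' u, ¬ 3 ∣ u ∧ T ≤ T' ∧ T' ≤ T + (2 * 3 ^ c - 1) ∧
      T' + 1 = 3 ^ c * u := by
    set w := T / 3 ^ c with hw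
    have h1 := Nat.div_add_mod T (3 ^ c)
    have h2 := Nat.mod_lt T h3c
    rw [← hw] at h1
    by_cases h3 : 3 ∣ w + 1
    · refine ⟨3 ^ c * (w + 2) - 1, w + 2, by omega, ?_, ?_, ?_⟩
      · have : 3 ^ c * (w + 2) = 3 ^ c * w + 2 * 3 ^ c := by ring
        omega
      · have : 3 ^ c * (w + 2) = 3 ^ c * w + 2 * 3 ^ c := by ring
        omega
      · have : 0 < 3 ^ c * (w + 2) := by positivity
        omega
    · refine ⟨3 ^ c * (w + 1) - 1, w + 1, h3, ?_, ?_, ?_⟩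
      · have : 3 ^ c * (w + 1) = 3 ^ c * w + 3 ^ c := by ring
        omega
      · have : 3 ^ c * (w + 1) = 3 ^ c * w + 3 ^ c := by ring
        omega
      · have : 0 < 3 ^ c * (w + 1) := by positivity
        omega
  have hb1 : T * M ≤ T' * M := Nat.mul_le_mul_right _ hTT
  have hb2 : T' * M ≤ T * M + (2 * 3 ^ c - 1) * M := by
    rw [← Nat.add_mul]
    exact Nat.mul_le_mul_right _ hT3
  have hb3 : (2 * 3 ^ c - 1) * M + M = 2 * 3 ^ c * M := by
    have : (2 * 3 ^ c - 1) * M + 1 * M = (2 * 3 ^ c - 1 + 1) * M := by ring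
    rw [Nat.one_mul] at this
    rw [this]
    congr 1
    omega
  have hb4 : 2 * 3 ^ c * M ≤ 2 * 3 ^ c * 3 ^ L := by
    apply Nat.mul_le_mul_left
    have := pow_ineq2 L hL
    have h2 : (2 : ℕ) ^ (L + 1) = 2 * 2 ^ L := by ring
    omega
  have hb5 : 2 * 3 ^ c * 3 ^ L = 2 * 3 ^ (L + c) := by ring
  refine ⟨T' * M + (2 ^ L - 1), by omega, by omega, ?_⟩
  have e0 : (T' * M + (2 ^ L - 1)) % M = 2 ^ L - 1 := by
    rw [Nat.add_comm, Nat.add_mul_mod_self_right, Nat.mod_eq_of_lt (by omega)]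
  have e0' : (T' * M + (2 ^ L - 1)) / M = T' := by
    rw [Nat.add_comm, Nat.add_mul_div_right _ _ hM0, Nat.div_eq_of_lt (by omega), Nat.zero_add]
  have e1 : (T' * M + (2 ^ L - 1) + 3 ^ (L + c) * b * M) % M = 2 ^ L - 1 := by
    rw [Nat.add_mul_mod_self_right, e0]
  have e2 : (T' * M + (2 ^ L - 1) + 3 ^ (L + c) * b * M) / M = T' + 3 ^ (L + c) * b := by
    rw [Nat.add_mul_div_right _ _ hM0, e0']
  have hv : padicValNat 2 (2 ^ L - 1 + 1) = L := by
    have : 2 ^ L - 1 + 1 = 2 ^ L * 1 := by omega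
    rw [this]
    exact pv_eq Nat.prime_two L 1 (by norm_num)
  have hw1 : padicValNat 3 (T' + 1) = c := by
    rw [hT4]
    exact pv_eq Nat.prime_three c u hu
  have hw2 : padicValNat 3 (T' + 3 ^ (L + c) * b + 1) = c := by
    have : T' + 3 ^ (L + c) * b + 1 = 3 ^ c * (u + 3 * (3 ^ (L - 1) * b)) := by
      have h1 : 3 ^ (L + c) * b = 3 ^ c * (3 * (3 ^ (L - 1) * b)) := by
        have : L + c = c + (L - 1) + 1 := by omega
        rw [this, pow_succ, pow_add]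
        ring
      rw [h1, Nat.mul_add, ← hT4]
      ring
    rw [this]
    exact pv_eq Nat.prime_three c _ (by omega)
  unfold digD
  rw [e0, e0', e1, e2, hv, if_neg (lt_irrefl _), if_neg (lt_irrefl _), hw1, hw2]
  exact digit_ne _ _ _ hb

/-- Module DG. Digit sequences exist. -/
theorem exists_dig (K : ℕ) (hK : 1 ≤ K) : ∃ D : ℕ → ℕ, Dig K D := by
  set M := 49 * K with hM
  have hM1 : M ≠ 0 := by omega
  have h1 : 2 ^ Nat.log 2 M ≤ M := Nat.pow_log_le_self 2 hM1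
  have h2 : M < 2 ^ (Nat.log 2 M + 1) := Nat.lt_pow_succ_log_self (by norm_num) M
  have h3 : 2 ≤ Nat.log 2 M := Nat.le_log_of_pow_le (by norm_num) (by omega)
  refine ⟨digD M (Nat.log 2 M), ⟨?_, ?_, ?_⟩⟩
  · intro β
    unfold digD
    exact Nat.mod_lt _ (by norm_num)
  · intro β hβ
    unfold digD
    rw [Nat.div_eq_of_lt hβ, Nat.zero_div]
  · intro a ha s
    obtain ⟨l, b, hb, rfl⟩ := Nat.exists_eq_pow_mul_and_not_dvd (n := a) (by omega) 3 (by norm_num)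
    rcases Nat.lt_or_ge l (Nat.log 2 M) with h | h
    · exact disp_small h h1 hb
    · exact disp_large h h3 h1 h2 hb

end Pool.Agent.Helper5.PH
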