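import Pool.Agent.Helper5.PH.Basic

/-!
# Structural repetitions are short
-/

set_option autoImplicit false

namespace Pool.Agent.Helper5.PH

lemma sg_zero (t : ℕ) : sg t 0 = 0 := rfl
lemma sg_one (t : ℕ) : sg t 1 = t % 7 := rfl
lemma sg_two (t : ℕ) : sg t 2 = 2 * (t % 7) + t / 7 % 7 := rfl

lemma pl_mid (K : ℕ) (D : ℕ → ℕ) (s : ℕ) : pl K D s % 21 / 3 =
    (s % 21 / 3 + (s / 21 / K % 2 + 2 * D (s / 21)) + sg (s / 21 / K) (s % 3)) % 7 := by
  unfold pl
  have h1 := Nat.mod_lt (s % 21 / 3 + (s / 21 / K % 2 + 2 * D (s / 21)) + sg (s / 21 / K) (s % 3))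
    (show 0 < 7 by norm_num)
  have h2 := Nat.mod_lt s (show 0 < 3 by norm_num)
  generalize (s % 21 / 3 + (s / 21 / K % 2 + 2 * D (s / 21)) + sg (s / 21 / K) (s % 3)) % 7 = x at *
  generalize s / 21 % K = y at *
  omega

/-- The facts on a matched pair of positions. -/
structure Mt (K : ℕ) (D : ℕ → ℕ) (p j s : ℕ) : Prop where
  blk : (s + p) / 21 = s / 21 + K * j
  md : (s + p) % 3 = s % 3
  eq : (s % 21 / 3 + (s / 21 / K % 2 + 2 * D (s / 21)) + sg (s / 21 / K) (s % 3)) % 7 =
    ((s + p) % 21 / 3 + ((s / 21 / K + j) % 2 + 2 * D (s / 21 + K * j)) +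
      sg (s / 21 / K + j) (s % 3)) % 7

lemma exists_Mt {K : ℕ} (hK : 1 ≤ K) {D : ℕ → ℕ} {p s : ℕ} (hp : 1 ≤ p)
    (h : pl K D s = pl K D (s + p)) : ∃ j, 1 ≤ j ∧ Mt K D p j s := by
  have h1 := pl_mod K D s
  have h2 := pl_mod K D (s + p)
  have h3 := pl_div K D s
  have h4 := pl_div K D (s + p)
  have h5 := pl_mid K D s
  have h6 := pl_mid K D (s + p)
  rw [← h] at h2 h4 h6
  rw [h1] at h2
  rw [h3] at h4
  rw [h5] at h6
  have h7 : s / 21 ≤ (s + p) / 21 := Nat.div_le_div_right (by omega)
  obtain ⟨j, hj⟩ : K ∣ (s + p) / 21 - s / 21 := (Nat.modEq_iff_dvd' h7).mp h4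
  have h8 : (s + p) / 21 = s / 21 + K * j := by omega
  have h9 : (s + p) / 21 / K = s / 21 / K + j := by
    rw [h8, Nat.add_mul_div_left _ _ (by omega)]
  rw [h9, h8, ← h2] at h6
  refine ⟨j, ?_, h8, h2.symm, h6⟩
  rcases Nat.eq_zero_or_pos j with h0 | h0
  · exfalso
    subst h0
    rw [Nat.mul_zero, Nat.add_zero] at h8
    rw [Nat.mul_zero, Nat.add_zero, Nat.add_zero] at h6
    generalize (s / 21 / K % 2 + 2 * D (s / 21)) = A at h6
    generalize sg (s / 21 / K) (s % 3) = B at h6
    omega
  · exact h0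

lemma Mt_unique {K : ℕ} (hK : 2 ≤ K) {D : ℕ → ℕ} {p j j' s s' : ℕ} (h : Mt K D p j s)
    (h' : Mt K D p j' s') : j = j' := by
  have h1 := h.blk
  have h2 := h'.blk
  rcases lt_trichotomy j j' with h3 | h3 | h3
  · have h4 : K * (j + 1) ≤ K * j' := Nat.mul_le_mul_left _ h3
    have h5 : K * (j + 1) = K * j + K := by ring
    omega
  · exact h3
  · have h4 : K * (j' + 1) ≤ K * j := Nat.mul_le_mul_left _ h3
    have h5 : K * (j' + 1) = K * j' + K := by ring
    omega

/-- Two consecutive matched positions in one block. -/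
lemma pair_eq {K : ℕ} {D : ℕ → ℕ} {p j s : ℕ} (h : Mt K D p j s) (h' : Mt K D p j (s + 1))
    (hb : (s + 1) / 21 = s / 21) :
    (sg (s / 21 / K) (s % 3) + sg (s / 21 / K + j) ((s % 3 + 1) % 3)) % 7 =
      (sg (s / 21 / K + j) (s % 3) + sg (s / 21 / K) ((s % 3 + 1) % 3)) % 7 := by
  have h1 := h.blk
  have h2 := h'.blk
  have h3 := h.eq
  have h4 := h'.eq
  have h5 := h.md
  have e1 : (s + 1) % 3 = (s % 3 + 1) % 3 := by omega
  rw [hb] at h2 h4
  rw [e1] at h4
  generalize (s / 21 / K % 2 + 2 * D (s / 21)) = A at h3 h4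
  generalize ((s / 21 / K + j) % 2 + 2 * D (s / 21 + K * j)) = A' at h3 h4
  generalize sg (s / 21 / K) (s % 3) = B1 at *
  generalize sg (s / 21 / K + j) (s % 3) = B2 at *
  generalize sg (s / 21 / K + j) ((s % 3 + 1) % 3) = B3 at *
  generalize sg (s / 21 / K) ((s % 3 + 1) % 3) = B4 at *
  have e2 : s + 1 + p = s + p + 1 := by omega
  rw [e2] at h2 h4
  rw [← h1] at h2
  generalize s + p = s' at *
  have e3 : (s + 1) % 21 / 3 + s % 21 / 3 + s' % 21 / 3 = (s' + 1) % 21 / 3 + s % 21 / 3 + s % 21 / 3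
      := by
    omega
  omega

lemma ar_add (t j : ℕ) (hj3 : j ≤ 3) :
    ((t + j) % 7 = t % 7 + j ∧ (t + j) / 7 % 7 = t / 7 % 7) ∨
      ((t + j) % 7 + 7 = t % 7 + j ∧
        ((t + j) / 7 % 7 = t / 7 % 7 + 1 ∨ (t + j) / 7 % 7 + 6 = t / 7 % 7)) := by
  obtain ⟨b, a, ha, rfl⟩ : ∃ b a, a < 7 ∧ t = 7 * b + a := ⟨t / 7, t % 7, by omega, by omega⟩
  have e1 : (7 * b + a) % 7 = a := by omega
  have e2 : (7 * b + a) / 7 = b := by omega
  rw [e1, e2]
  rcases Nat.lt_or_ge (a + j) 7 with h | h
  · have e3 : (7 * b + a + j) / 7 = b := by omega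
    rw [e3]
    left
    omega
  · have e3 : (7 * b + a + j) / 7 = b + 1 := by omega
    rw [e3]
    right
    omega

lemma pair_small {K : ℕ} {D : ℕ → ℕ} {p j s : ℕ} (h : Mt K D p j s) (h' : Mt K D p j (s + 1))
    (hb : (s + 1) / 21 = s / 21) (hj1 : 1 ≤ j) (hj3 : j ≤ 3) (hs : s % 3 ≠ 2) : False := by
  have h1 := pair_eq h h' hb
  generalize s / 21 / K = t at h1
  rcases (by omega : s % 3 = 0 ∨ s % 3 = 1) with h2 | h2
  · rw [h2] at h1
    rw [show (0 + 1) % 3 = 1 from rfl, sg_zero, sg_zero, sg_one, sg_one] at h1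
    omega
  · rw [h2] at h1
    rw [show (1 + 1) % 3 = 2 from rfl, sg_one, sg_one, sg_two, sg_two] at h1
    have h3 := ar_add t j hj3
    generalize (t + j) / 7 % 7 = B' at *
    generalize t / 7 % 7 = B at *
    generalize (t + j) % 7 = A' at *
    generalize t % 7 = A at *
    omega

lemma pair_one {K : ℕ} {D : ℕ → ℕ} {p s : ℕ} (h : Mt K D p 1 s) (h' : Mt K D p 1 (s + 1))
    (hb : (s + 1) / 21 = s / 21) : False := by
  by_cases hs : s % 3 = 2
  · have h1 := pair_eq h h' hb
    generalize s / 21 / K = t at h1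
    rw [hs] at h1
    rw [show (2 + 1) % 3 = 0 from rfl, sg_zero, sg_zero, sg_two, sg_two] at h1
    have h3 := ar_add t 1 (by norm_num)
    generalize (t + 1) / 7 % 7 = B' at *
    generalize t / 7 % 7 = B at *
    generalize (t + 1) % 7 = A' at *
    generalize t % 7 = A at *
    omega
  · exact pair_small h h' hb le_rfl (by norm_num) hs

lemma mod49 {t j : ℕ} (h1 : (t + j) % 7 = t % 7) (h2 : (t + j) / 7 % 7 = t / 7 % 7) :
    j % 49 = 0 := by omega

/-- Three consecutive matched positions in one block. -/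
lemma triple {K : ℕ} {D : ℕ → ℕ} {p j s : ℕ} (h : Mt K D p j s) (h' : Mt K D p j (s + 1))
    (h'' : Mt K D p j (s + 2)) (hb : (s + 2) / 21 = s / 21) : j % 49 = 0 := by
  have hb1 : (s + 1) / 21 = s / 21 := by omega
  have h1 := pair_eq h h' hb1
  have h2 := pair_eq h' h'' (by omega)
  rw [hb1] at h2
  generalize s / 21 / K = t at h1 h2
  have e1 : (s + 1) % 3 = (s % 3 + 1) % 3 := by omega
  rw [e1] at h2
  rcases (by omega : s % 3 = 0 ∨ s % 3 = 1 ∨ s % 3 = 2) with h3 | h3 | h3
  · rw [h3] at h1 h2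
    rw [show (0 + 1) % 3 = 1 from rfl] at h1 h2
    rw [show (1 + 1) % 3 = 2 from rfl] at h2
    rw [sg_zero, sg_zero, sg_one, sg_one] at h1
    rw [sg_one, sg_one, sg_two, sg_two] at h2
    have h4 : (t + j) % 7 = t % 7 := by omega
    apply mod49 h4
    rw [h4] at h2
    have g1 := Nat.mod_lt (t / 7) (show 0 < 7 by norm_num)
    have g2 := Nat.mod_lt ((t + j) / 7) (show 0 < 7 by norm_num)
    generalize (t + j) / 7 % 7 = b' at *
    generalize t / 7 % 7 = b at *
    generalize t % 7 = a at *
    omega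
  · rw [h3] at h1 h2
    rw [show (1 + 1) % 3 = 2 from rfl] at h1 h2
    rw [show (2 + 1) % 3 = 0 from rfl] at h2
    rw [sg_one, sg_one, sg_two, sg_two] at h1
    rw [sg_two, sg_two, sg_zero, sg_zero] at h2
    have h4 : (t + j) % 7 = t % 7 := by omega
    apply mod49 h4
    rw [h4] at h1
    have g1 := Nat.mod_lt (t / 7) (show 0 < 7 by norm_num)
    have g2 := Nat.mod_lt ((t + j) / 7) (show 0 < 7 by norm_num)
    generalize (t + j) / 7 % 7 = b' at *
    generalize t / 7 % 7 = b at *
    generalize t % 7 = a at *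
    omega
  · rw [h3] at h1 h2
    rw [show (2 + 1) % 3 = 0 from rfl] at h1 h2
    rw [show (0 + 1) % 3 = 1 from rfl] at h2
    rw [sg_two, sg_two, sg_zero, sg_zero] at h1
    rw [sg_zero, sg_zero, sg_one, sg_one] at h2
    have h4 : (t + j) % 7 = t % 7 := by omega
    apply mod49 h4
    rw [h4] at h1
    have g1 := Nat.mod_lt (t / 7) (show 0 < 7 by norm_num)
    have g2 := Nat.mod_lt ((t + j) / 7) (show 0 < 7 by norm_num)
    generalize (t + j) / 7 % 7 = b' at *
    generalize t / 7 % 7 = b at *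
    generalize t % 7 = a at *
    omega

lemma dig_arith {a c c' d d' B : ℕ} (hc : c < 2) (hc' : c' < 2) (hd : d < 3) (hd' : d' < 3)
    (h : (a + (c + 2 * d) + B) % 7 = (a + (c' + 2 * d') + B) % 7) : c = c' ∧ d = d' := by
  have h1 : (a + B + (c + 2 * d)) % 7 = (a + B + (c' + 2 * d')) % 7 := by
    have e1 : a + B + (c + 2 * d) = a + (c + 2 * d) + B := by ring
    have e2 : a + B + (c' + 2 * d') = a + (c' + 2 * d') + B := by ring
    rw [e1, e2, h]
  generalize a + B = X at h1
  have h2 : c + 2 * d = c' + 2 * d' := by omega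
  omega

/-- Module ST. Structural repetitions are short. -/
theorem struct_run {K : ℕ} (hK : 2 ≤ K) {D : ℕ → ℕ} (hD : Dig K D) {p x L : ℕ} (hp : 1 ≤ p)
    (hL : 1 ≤ L) (h : ∀ y, y < L → pl K D (x + y) = pl K D (x + y + p)) :
    ∃ j, 1 ≤ j ∧ j * (21 * K) ≤ p + 20 ∧ p ≤ j * (21 * K) + 20 ∧ L ≤ j ∧
      (25 ≤ j → 7 * L ≤ 6 * j) := by
  obtain ⟨j, hj, hM0⟩ := exists_Mt (by omega) hp (h 0 (by omega))
  have hM : ∀ y, y < L → Mt K D p j (x + y) := by
    intro y hy
    obtain ⟨j', -, hM'⟩ := exists_Mt (by omega) hp (h y hy)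
    rw [Mt_unique hK hM0 hM']
    exact hM'
  have hq : j * (21 * K) = 21 * (K * j) := by ring
  have hb0 := hM0.blk
  rw [Nat.add_zero] at hb0
  refine ⟨j, hj, by omega, by omega, ?_⟩
  have hB : ∀ y, y < L → (x + y + p) / 21 = (x + y) / 21 + K * j := fun y hy => (hM y hy).blk
  by_cases hp21 : p = 21 * (K * j)
  · by_cases h49 : j % 49 = 0
    · -- digits
      obtain ⟨a, ha⟩ : ∃ a, j = 49 * a := ⟨j / 49, by omega⟩
      have ha1 : 1 ≤ a := by omega
      obtain ⟨β, b1, b2, b3⟩ := hD.disp a ha1 (x / 21)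
      have hqa : a * (49 * K) = K * j := by rw [ha]; ring
      rw [hqa] at b3
      have hLa : L ≤ 42 * a := by
        by_contra hcon
        -- a position of the run in block β
        have hpos : ∃ y, y < L ∧ (x + y) / 21 = β := by
          rcases Nat.eq_or_lt_of_le b1 with h1 | h1
          · exact ⟨0, by omega, by omega⟩
          · refine ⟨21 * β - x, by omega, by omega⟩
        obtain ⟨y, hy, hyβ⟩ := hpos
        have h1 := (hM y hy).eq
        have h2 := (hM y hy).blk
        rw [hyβ] at h1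
        have h3 : (x + y + p) % 21 = (x + y) % 21 := by omega
        have h4 : sg (β / K + j) ((x + y) % 3) = sg (β / K) ((x + y) % 3) := by
          have e1 : (β / K + j) % 7 = β / K % 7 := by omega
          have e2 : (β / K + j) / 7 % 7 = β / K / 7 % 7 := by omega
          unfold sg
          rw [e1, e2]
        rw [h3, h4] at h1
        exact b3 (dig_arith (Nat.mod_lt _ (by norm_num)) (Nat.mod_lt _ (by norm_num))
          (hD.lt β) (hD.lt (β + K * j)) h1).2
      constructor
      · omega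
      · intro _
        omega
    · have hL4 : L ≤ 4 := by
        by_contra hcon
        by_cases hb : (x + 2) / 21 = x / 21
        · exact h49 (triple (hM 0 (by omega)) (hM 1 (by omega)) (hM 2 (by omega)) hb)
        · refine h49 (triple (hM 2 (by omega)) ?_ ?_ (by omega))
          · exact hM 3 (by omega)
          · exact hM 4 (by omega)
      have hL2 : j ≤ 3 → L ≤ 2 := by
        intro hj3
        by_contra hcon
        by_cases hx : x % 3 = 2
        · exact pair_small (hM 1 (by omega)) (hM 2 (by omega)) (by omega) hj hj3 (by omega)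
        · exact pair_small (hM 0 (by omega)) (hM 1 (by omega)) (by omega) hj hj3 (by omega)
      have hL1 : j = 1 → L ≤ 1 := by
        intro hj1
        by_contra hcon
        subst hj1
        by_cases hb : (x + 1) / 21 = x / 21
        · exact pair_one (hM 0 (by omega)) (hM 1 (by omega)) hb
        · have h1 := (hM 1 (by omega)).eq
          have h2 : (x + 1) % 3 = 0 := by omega
          have h3 : (x + 1 + p) % 21 = (x + 1) % 21 := by
            have := hB 1 (by omega)
            omega
          rw [h2, h3, sg_zero, sg_zero] at h1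
          have h4 := (dig_arith (Nat.mod_lt _ (by norm_num)) (Nat.mod_lt _ (by norm_num))
            (hD.lt _) (hD.lt _) h1).1
          omega
      constructor
      · rcases Nat.lt_or_ge j 4 with h1 | h1
        · have := hL2 (by omega)
          rcases Nat.lt_or_ge j 2 with h2 | h2
          · have := hL1 (by omega)
            omega
          · omega
        · omega
      · intro _
        omega
  · -- `p` is not a multiple of 21
    have hblk : ∀ y, y < L → (x + y) / 21 = x / 21 := by
      intro y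
      induction y with
      | zero => intro _; rfl
      | succ y ih =>
        intro hy
        have h1 := ih (by omega)
        have h2 := hB y (by omega)
        have h3 := hB (y + 1) hy
        generalize K * j = q at *
        omega
    have hL20 : L ≤ 20 := by
      by_contra hcon
      have h1 := hblk 20 (by omega)
      have h2 := hB 0 (by omega)
      have h3 := hB 20 (by omega)
      generalize K * j = q at *
      omega
    have hL2 : j < 49 → L ≤ 2 := by
      intro hj49
      by_contra hcon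
      have h1 := triple (hM 0 (by omega)) (hM 1 (by omega)) (hM 2 (by omega))
        (by have := hblk 2 (by omega); exact this)
      omega
    have hL1 : j = 1 → L ≤ 1 := by
      intro hj1
      by_contra hcon
      subst hj1
      exact pair_one (hM 0 (by omega)) (hM 1 (by omega))
        (by have := hblk 1 (by omega); exact this)
    constructor
    · rcases Nat.lt_or_ge j 49 with h1 | h1
      · have := hL2 h1
        rcases Nat.lt_or_ge j 2 with h2 | h2
        · have := hL1 (by omega)
          omega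
        · omega
      · omega
    · intro _
      omega

end Pool.Agent.Helper5.PH
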