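import Pool.Agent.Helper5.PH.Basic
import Pool.Agent.Helper5.PH.Struct

/-!
# Entry into the structured part
-/

set_option autoImplicit false

namespace Pool.Agent.Helper5.PH

lemma psi_lt (u : ℕ) : psi u < 3 := Nat.mod_lt _ (by norm_num)

lemma psi_zero : psi 0 = 2 := rfl

lemma psi_cases (u : ℕ) : ((u + 1) % 21 = 0 ∧ psi (u + 1) = psi u) ∨
    ((u + 1) % 21 ≠ 0 ∧ psi (u + 1) = (psi u + 1) % 3) := by
  unfold psi
  have h0 : u / 21 ≤ u := Nat.div_le_self _ _
  by_cases h : (u + 1) % 21 = 0
  · left
    have h1 : (u + 1) / 21 = u / 21 + 1 := by omega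
    refine ⟨h, ?_⟩
    rw [h1]
    congr 2
    omega
  · right
    have h1 : (u + 1) / 21 = u / 21 := by omega
    refine ⟨h, ?_⟩
    rw [h1]
    have h2 : 2 + (u + 1 - u / 21) = 2 + (u - u / 21) + 1 := by omega
    rw [h2, Nat.mod_add_mod]

/-- `ψ` at `x - 1` and `x`. -/
lemma psi_cases' {x y : ℕ} (h : y = x + 1) : (y % 21 = 0 ∧ psi y = psi x) ∨
    (y % 21 ≠ 0 ∧ psi y = (psi x + 1) % 3) := by
  subst h
  exact psi_cases x

lemma no_up {a b : ℕ} (_ : a < 3) (_ : b < 3) (h : b = a ∨ b = (a + 1) % 3) :
    a ≠ (b + 1) % 3 := by omega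

lemma no_up' {a b : ℕ} (_ : a < 3) (_ : b < 3) (h : b = a) : b ≠ (a + 1) % 3 := by omega

/-- A long part inside `A'`, with its copy in `A` or later. -/
lemma inner {f : ℕ → ℕ} {z A' s t o p m n c : ℕ} (ho : z ≤ o) (ho2 : o + 59 < z + A') (hs : s ≤ o)
    (ht : o + 59 ≤ t) (hc : c ≤ o + p) (htn : t + p < n)
    (hTA' : ∀ i, z ≤ i → i < z + A' → f i = psi (i - z))
    (hTA : ∀ i, c ≤ i → i < m → f i = psi (m - 1 - i))
    (hty : ∀ i, s ≤ i → i ≤ t → f i = f (i + p))
    (hstR : ∀ i, m ≤ i + 1 → i + 1 < n → f (i + 1) = (f i + 1) % 3) : False := by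
  by_cases h6 : o + p + 2 < m
  · have a0 := hty o hs (by omega)
    have a1 := hty (o + 1) (by omega) (by omega)
    have a2 := hty (o + 2) (by omega) (by omega)
    rw [hTA' _ (by omega) (by omega), hTA _ (by omega) (by omega)] at a0 a1 a2
    have b1 := psi_cases' (show o + 1 - z = (o - z) + 1 by omega)
    have b2 := psi_cases' (show o + 2 - z = (o + 1 - z) + 1 by omega)
    have b3 := psi_cases' (show m - 1 - (o + p) = (m - 1 - (o + 1 + p)) + 1 by omega)
    have b4 := psi_cases' (show m - 1 - (o + 1 + p) = (m - 1 - (o + 2 + p)) + 1 by omega)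
    have g1 := psi_lt (o - z)
    have g2 := psi_lt (o + 1 - z)
    have g3 := psi_lt (o + 2 - z)
    rw [← a0, ← a1] at b3
    rw [← a1, ← a2] at b4
    generalize psi (o - z) = x0 at *
    generalize psi (o + 1 - z) = x1 at *
    generalize psi (o + 2 - z) = x2 at *
    clear hTA' hTA hty hstR a0 a1 a2
    have c3 : (m - 1 - (o + p)) % 21 = 0 ∧ x0 = x1 := by
      rcases b3 with b3 | b3
      · exact b3
      · exfalso
        rcases b1 with b1 | b1
        · omega
        · omega
    have c4 : (m - 1 - (o + 1 + p)) % 21 = 0 ∧ x1 = x2 := by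
      rcases b4 with b4 | b4
      · exact b4
      · exfalso
        rcases b2 with b2 | b2
        · omega
        · omega
    omega
  · obtain ⟨i, i1, i2, i3⟩ : ∃ i, o + 2 ≤ i ∧ i < o + 24 ∧ (i + 1 - z) % 21 = 0 := by
      clear hTA' hTA hty hstR
      refine ⟨z + 21 * ((o + 2 - z) / 21 + 1) - 1, ?_, ?_, ?_⟩ <;> omega
    have a0 := hty i (by omega) (by omega)
    have a1 := hty (i + 1) (by omega) (by omega)
    have e1 : i + 1 + p = i + p + 1 := by omega
    have a2 := hstR (i + p) (by omega) (by omega)
    rw [e1] at a1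
    rw [hTA' _ (by omega) (by omega)] at a0 a1
    have b1 := psi_cases' (show i + 1 - z = (i - z) + 1 by omega)
    rw [← a0, ← a1] at a2
    rcases b1 with b1 | b1
    · exact no_up' (psi_lt _) (psi_lt _) b1.2 a2
    · exact b1.1 i3

/-- Module EN. Entry into the structured part. -/
theorem entry {γ : Type} {e : ℕ → ℕ} (hle : ∀ a, e a ≤ a) (hmono : ∀ a b, a ≤ b → e a ≤ e b)
    {K : ℕ} (hK : 2 ≤ K) {D : ℕ → ℕ} (hD : Dig K D)
    (hej : ∀ j p, 1 ≤ j → j * (21 * K) ≤ p + 20 → j ≤ e p)
    (ty : γ → ℕ) (u : ℕ → γ) (z A' d A m n : ℕ) (hm : m = z + A' + d + A)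
    (hA : d + 100 ≤ e A) (hA' : 100 ≤ A')
    (hZ : ∀ i, i < z → ty (u i) = (z - 1 - i) % 3)
    (hTA' : ∀ i, z ≤ i → i < z + A' → ty (u i) = psi (i - z))
    (hTA : ∀ i, z + A' + d ≤ i → i < m → ty (u i) = psi (m - 1 - i))
    (hTR : ∀ i, m ≤ i → i < n → ty (u i) = (i - m) % 3)
    (lam : ℕ → γ) (hlam : ∀ c, c < 21 * K → ∀ c', c' < 21 * K → lam c = lam c' → c = c')
    (hRl : ∀ i, m ≤ i + 1 → i < n → u i = lam (pl K D (i + 21 * K - m)))
    (hclose : ∀ p, 1 ≤ p → e p = 0 → ∀ s, s + p < n → u s ≠ u (s + p))
    (hKF : KFn e u m) : KFn e u n := by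
  have hpl : ∀ s, pl K D s < 21 * K := fun s => pl_lt (by omega) D s
  have hAA := hle A
  intro p hp s hs
  by_cases hold1 : s + p + (e p + 1) ≤ m
  · exact hKF p hp s hold1
  by_contra hcon
  push Not at hcon
  have hep := hle p
  have hep1 : 1 ≤ e p := by
    rcases Nat.eq_zero_or_pos (e p) with h0 | h0
    · exfalso
      have h1 := hcon 0 (by omega)
      exact hclose p hp h0 s (by omega) h1
    · exact h0
  -- equality of types
  obtain ⟨f, hf⟩ : ∃ f : ℕ → ℕ, f = fun i => ty (u i) := ⟨_, rfl⟩
  have hfi : ∀ i, f i = ty (u i) := fun i => by rw [hf]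
  simp only [← hfi] at hZ hTA' hTA hTR
  have hty : ∀ i, s ≤ i → i ≤ s + e p → f i = f (i + p) := by
    intro i h1 h2
    have h3 := hcon (i - s) (by omega)
    have e1 : s + (i - s) = i := by omega
    have e2 : s + p + (i - s) = i + p := by omega
    rw [e1, e2] at h3
    rw [hfi, hfi, h3]
  have hstR : ∀ i, m ≤ i + 1 → i + 1 < n → f (i + 1) = (f i + 1) % 3 := by
    intro i h1 h2
    rcases Nat.eq_or_lt_of_le h1 with h3 | h3
    · rw [hTR (i + 1) h1 h2, hTA i (by omega) (by omega)]
      have e1 : m - 1 - i = 0 := by omega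
      have e2 : i + 1 - m = 0 := by omega
      rw [e1, e2, psi_zero]
    · rw [hTR (i + 1) h1 h2, hTR i (by omega) (by omega)]
      omega
  set ye := s + e p with hye
  have hv : m ≤ ye + p := by omega
  have hvn : ye + p < n := by omega
  have hlong : ∀ o, z ≤ o → o + 59 < z + A' → s ≤ o → o + 59 ≤ ye → z + A' + d ≤ o + p →
      False := fun o h1 h2 h3 h4 h5 => inner h1 h2 h3 h4 h5 hvn hTA' hTA hty hstR
  have hlast : f (ye + p) = (f (ye - 1 + p) + 1) % 3 := by
    have h1 := hstR (ye - 1 + p) (by omega) (by omega)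
    have e1 : ye - 1 + p + 1 = ye + p := by omega
    rw [e1] at h1
    exact h1
  have hq0 := hty ye (by omega) le_rfl
  have hq1 := hty (ye - 1) (by omega) (by omega)
  rw [← hq0, ← hq1] at hlast
  clear hq0 hq1
  rcases Nat.lt_or_ge ye m with h1 | h1
  · rcases Nat.lt_or_ge (z + A' + d) ye with h2 | h2
    · -- inside the A part
      rw [hTA _ (by omega) (by omega), hTA _ (by omega) (by omega)] at hlast
      have b1 := psi_cases' (show m - 1 - (ye - 1) = (m - 1 - ye) + 1 by omega)
      exact no_up (psi_lt _) (psi_lt _) (b1.imp And.right And.right) hlast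
    · rcases Nat.lt_or_ge ye (z + A') with h3 | h3
      · have hpA : A ≤ p := by omega
        have hepA := hmono A p hpA
        rcases Nat.lt_or_ge ye (z + 60) with h4 | h4
        · rcases Nat.lt_or_ge z ye with h5 | h5
          · -- around the border of Z and A'
            have hz41 : 41 ≤ z := by omega
            by_cases h6 : m ≤ z - 2 + p + 1
            · have a0 := hty (z - 2) (by omega) (by omega)
              have a1 := hty (z - 1) (by omega) (by omega)
              have a2 := hstR (z - 2 + p) (by omega) (by omega)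
              have e1 : z - 2 + p + 1 = z - 1 + p := by omega
              rw [e1, ← a0, ← a1, hZ _ (by omega), hZ _ (by omega)] at a2
              have e2 : z - 1 - (z - 1) = 0 := by omega
              have e3 : z - 1 - (z - 2) = 1 := by omega
              rw [e2, e3] at a2
              exact absurd a2 (by norm_num)
            · obtain ⟨i, i1, i2, i3⟩ : ∃ i, z - 40 ≤ i ∧ i + 2 < z ∧ (m - 1 - (i + p)) % 21 = 0 := by
                clear hZ hTA' hTA hTR hty hstR hlong hlast hcon hRl hclose hKF hlam hej
                refine ⟨m - 1 - p - 21 * ((m - 1 - p - (z - 3) + 20) / 21), ?_, ?_, ?_⟩ <;> omega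
              have a0 := hty i (by omega) (by omega)
              have a1 := hty (i + 1) (by omega) (by omega)
              rw [hZ _ (by omega), hTA _ (by omega) (by omega)] at a0 a1
              have b1 := psi_cases' (show m - 1 - (i + p) = (m - 1 - (i + 1 + p)) + 1 by omega)
              rcases b1 with b1 | b1
              · rw [← a0, ← a1] at b1
                have b2 := b1.2
                clear hZ hTA' hTA hTR hty hstR hlong hlast hcon hRl hclose hKF hlam hej
                omega
              · exact b1.1 i3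
          · -- inside Z
            rw [hZ (ye - 1) (by omega)] at hlast
            rcases Nat.eq_or_lt_of_le h5 with h6 | h6
            · rw [hTA' ye (by omega) (by omega)] at hlast
              have e2 : ye - z = 0 := by omega
              have e3 : z - 1 - (ye - 1) = 0 := by omega
              rw [e2, e3, psi_zero] at hlast
              exact absurd hlast (by norm_num)
            · rw [hZ ye h6] at hlast
              clear hZ hTA' hTA hTR hty hstR hlong hcon hRl hclose hKF hlam hej
              omega
        · exact hlong (ye - 59) (by omega) (by omega) (by omega) (by omega) (by omega)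
      · have hpA : A ≤ p := by omega
        have hepA := hmono A p hpA
        exact hlong (z + A' - 60) (by omega) (by omega) (by omega) (by omega) (by omega)
  · rcases Nat.lt_or_ge (s + 1) m with h2 | h2
    · have a0 := hty (m - 2) (by omega) (by omega)
      have a1 := hty (m - 1) (by omega) (by omega)
      have a2 := hstR (m - 2 + p) (by omega) (by omega)
      have e1 : m - 2 + p + 1 = m - 1 + p := by omega
      rw [e1, ← a0, ← a1, hTA _ (by omega) (by omega), hTA _ (by omega) (by omega)] at a2
      have e2 : m - 1 - (m - 1) = 0 := by omega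
      have e3 : m - 1 - (m - 2) = 1 := by omega
      rw [e2, e3] at a2
      exact absurd a2 (by decide)
    · obtain ⟨j, j1, j2, j3, j4, j5⟩ := struct_run hK hD (p := p) (x := s + 21 * K - m)
        (L := e p + 1) hp (by omega) (by
          intro y hy
          have h5 := hcon y (by omega)
          rw [hRl (s + y) (by omega) (by omega), hRl (s + p + y) (by omega) (by omega)] at h5
          have h6 := hlam _ (hpl _) _ (hpl _) h5
          have e3 : s + y + 21 * K - m = s + 21 * K - m + y := by omega
          have e4 : s + p + y + 21 * K - m = s + 21 * K - m + y + p := by omega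
          rw [e3, e4] at h6
          exact h6)
      have h7 := hej j p j1 j2
      omega

end Pool.Agent.Helper5.PH
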