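import Pool.Agent.Helper5.PH.Defs

/-!
# Labels from the outer end of the adversarial part
-/

set_option autoImplicit false

namespace Pool.Agent.Helper5.PH

/-- offset of the letter of place `c` in its slot of 21 letters -/
def wdel (K c : ℕ) : ℕ := 21 * (c / 21) + 3 * (c % 21 / 3) + (2 + 2 * K + c / 21 + 2 * (c % 3)) % 3

lemma wdel_bd (K c : ℕ) : c / 21 * 21 ≤ wdel K c ∧ wdel K c ≤ c / 21 * 21 + 20 := by
  unfold wdel
  omega

lemma wdel_psi (K c : ℕ) (hc : c < 21 * K) : psi (21 * K - 1 - wdel K c) = c % 3 := by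
  have hb := wdel_bd K c
  obtain ⟨i, r, hr, rfl⟩ : ∃ i r, r < 21 ∧ c = 21 * i + r := ⟨c / 21, c % 21, by omega, by omega⟩
  have e1 : (21 * i + r) / 21 = i := by omega
  have e2 : (21 * i + r) % 21 = r := by omega
  rw [e1] at hb
  have hi : i < K := by omega
  obtain ⟨k, rfl⟩ : ∃ k, K = i + 1 + k := ⟨K - i - 1, by omega⟩
  have e3 : wdel (i + 1 + k) (21 * i + r) =
      21 * i + 3 * (r / 3) + (2 + 2 * (i + 1 + k) + i + 2 * (r % 3)) % 3 := by
    unfold wdel
    rw [e1, e2]
    omega
  unfold psi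
  have e4 : (21 * (i + 1 + k) - 1 - wdel (i + 1 + k) (21 * i + r)) / 21 = k := by omega
  rw [e4, e3]
  omega

lemma wdel_last (K : ℕ) (hK : 1 ≤ K) : wdel K (21 * K - 1) = 21 * K - 1 := by
  obtain ⟨k, rfl⟩ : ∃ k, K = k + 1 := ⟨K - 1, by omega⟩
  have e : 21 * (k + 1) - 1 = 21 * k + 20 := by omega
  rw [e]
  unfold wdel
  omega

lemma wdel_inj (K c c' : ℕ) (h : wdel K c = wdel K c') : c = c' := by
  have h1 := wdel_bd K c
  have h2 := wdel_bd K c'
  have h3 : c / 21 = c' / 21 := by omega
  have h4 : c % 21 / 3 = c' % 21 / 3 := by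
    unfold wdel at h
    omega
  have h5 : (2 + 2 * K + c / 21 + 2 * (c % 3)) % 3 = (2 + 2 * K + c' / 21 + 2 * (c' % 3)) % 3 := by
    unfold wdel at h
    omega
  omega

/-- Module LB. Labels from the outer end of the adversarial part. -/
theorem exists_labels {α : Type} {K : ℕ} (hK : 1 ≤ K) (ty : α → ℕ) (a : List α)
    (ha : 21 * K ≤ a.length)
    (hty : ∀ i x, a[i]? = some x → ty x = psi (a.length - 1 - i))
    (hdist : ∀ i j, i < j → j < i + 21 * K → j < a.length → a[i]? ≠ a[j]?) :
    ∃ lam : ℕ → α, Lab (21 * K) ty lam ∧ a[a.length - 1]? = some (lam (21 * K - 1)) ∧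
      ∀ c, c < 21 * K → ∃ w, c / 21 * 21 ≤ w ∧ w ≤ c / 21 * 21 + 20 ∧
        a[a.length - 21 * K + w]? = some (lam c) := by
  have h0 : 0 < a.length := by omega
  set lam : ℕ → α := fun c => (a[a.length - 21 * K + wdel K c]?).getD (a[0]) with hlam
  have key : ∀ c, c < 21 * K → a[a.length - 21 * K + wdel K c]? = some (lam c) := by
    intro c hc
    have hb := wdel_bd K c
    have hlt : a.length - 21 * K + wdel K c < a.length := by omega
    rw [hlam]
    simp only [List.getElem?_eq_getElem hlt, Option.getD_some]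
  refine ⟨lam, ⟨?_, ?_⟩, ?_, ?_⟩
  · intro c hc
    have hb := wdel_bd K c
    rw [hty _ _ (key c hc)]
    have e : a.length - 1 - (a.length - 21 * K + wdel K c) = 21 * K - 1 - wdel K c := by omega
    rw [e]
    exact wdel_psi K c hc
  · intro c hc c' hc' hcc
    have hb := wdel_bd K c
    have hb' := wdel_bd K c'
    by_contra hne
    have hw : wdel K c ≠ wdel K c' := fun h => hne (wdel_inj K c c' h)
    have k1 := key c hc
    have k2 := key c' hc'
    rw [hcc, ← k2] at k1
    rcases lt_or_gt_of_ne hw with h | h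
    · exact hdist _ _ (by omega) (by omega) (by omega) k1
    · exact hdist _ _ (by omega) (by omega) (by omega) k1.symm
  · have k1 := key (21 * K - 1) (by omega)
    rw [wdel_last K hK] at k1
    have e : a.length - 21 * K + (21 * K - 1) = a.length - 1 := by omega
    rw [e] at k1
    exact k1
  · intro c hc
    exact ⟨wdel K c, (wdel_bd K c).1, (wdel_bd K c).2, key c hc⟩

end Pool.Agent.Helper5.PH
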