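import Pool.Agent.Helper5.PH.Pre

/-!
# Assembly
-/

set_option autoImplicit false

namespace Pool.Agent.Helper5.PH

open Pool.Agent.Helper25.PF

lemma ee_ge {κ : ℝ} (hκ : 0 < κ) {K j p : ℕ} (hK : ⌊1 / κ⌋₊ + 21 ≤ 21 * K) (hj : 1 ≤ j)
    (h : j * (21 * K) ≤ p + 20) : j ≤ ee κ p := by
  have h1 : 1 / κ < (⌊1 / κ⌋₊ : ℝ) + 1 := Nat.lt_floor_add_one _
  set q := ⌊1 / κ⌋₊ with hq
  have h2 : j * (q + 1) ≤ p := by
    have h3 : j * (q + 21) ≤ j * (21 * K) := Nat.mul_le_mul_left _ hK
    have h4 : j * (q + 21) = j * (q + 1) + 20 * j := by ring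
    omega
  have hp : 1 ≤ p := by
    have h3 : 1 * 1 ≤ j * (q + 1) := Nat.mul_le_mul hj (by omega)
    omega
  rw [le_ee_iff hκ hp]
  have h3 : (j : ℝ) * (q + 1) ≤ p := by exact_mod_cast h2
  have h4 : 1 < κ * (q + 1) := by
    rw [div_lt_iff₀ hκ] at h1
    linarith
  have h5 : (1 : ℝ) ≤ j := by exact_mod_cast hj
  have h6 : (j : ℝ) * 1 < j * (κ * (q + 1)) := mul_lt_mul_of_pos_left h4 (by linarith)
  have h7 : κ * ((j : ℝ) * (q + 1)) ≤ κ * p := mul_le_mul_of_nonneg_left h3 hκ.le
  linarith

lemma slot_end {K a u : ℕ} (_hK : 1 ≤ K) (ha : 1 ≤ a) (hu : u < 21 * K) :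
    (21 * K * a - 1 - u) / 21 % K = (21 * K - 1 - u) / 21 := by
  obtain ⟨a', rfl⟩ : ∃ a', a = a' + 1 := ⟨a - 1, by omega⟩
  have e1 : 21 * K * (a' + 1) - 1 - u = (21 * K - 1 - u) + 21 * (K * a') := by
    have : 21 * K * (a' + 1) = 21 * (K * a') + 21 * K := by ring
    omega
  rw [e1, Nat.add_mul_div_left _ _ (by norm_num), Nat.add_mul_mod_self_left]
  exact Nat.mod_eq_of_lt (by omega)

theorem main3_KF {α : Type} [Fintype α] {κ : ℝ} (hκ : 0 < κ) (hκ1 : κ < 1)
    (hcard : ⌊1 / κ⌋₊ + 59 ≤ Fintype.card α) (w : List α) (hw : KF (ee κ) w) :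
    ∃ u, KF (ee κ) u ∧ w <:+: u ∧ ∀ a b, ¬ KF (ee κ) (a :: (u ++ [b])) := by
  classical
  by_contra hcon
  push Not at hcon
  set e := ee κ with he
  set q := ⌊1 / κ⌋₊ with hq
  have he0 : e 0 = 0 := ee_zero κ
  have hsup := ee_sup hκ
  have hle := ee_le hκ hκ1
  have hmono : ∀ p p', p ≤ p' → e p ≤ e p' := ee_mono hκ
  have hqq : ∀ p, e p = 0 → p ≤ q := fun p hp => ee_eq_zero hκ p hp
  have hq0 : ∀ p, 1 ≤ p → p ≤ q → e p = 0 := fun p _ hp => ee_zero_of_le hκ p hp
  have hq1 : 1 ≤ q := by
    rw [hq]
    apply Nat.le_floor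
    rw [le_div_iff₀ hκ]
    push_cast
    linarith
  obtain ⟨n0, hn0⟩ := ee_large hκ 80
  set K := (q + 41) / 21 with hKdef
  set N := 21 * K with hN
  have hNq : q + 21 ≤ N := by omega
  have hNq' : N ≤ q + 41 := by omega
  have hK2 : 2 ≤ K := by omega
  have H : EH e q K := ⟨hle, hmono, ee_large hκ, hqq, hK2, hNq, fun j p hj h => ee_ge hκ hNq hj h⟩
  obtain ⟨Dg, hDg⟩ := exists_dig K (by omega)
  -- extension properties
  have hextR : ∀ u, KF e u → w <:+: u → ∃ c, KF e (u ++ [c]) := by
    intro u hu hwu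
    obtain ⟨a, b, hab⟩ := hcon u hu hwu
    exact ⟨b, hab.of_infix ⟨[a], [], by simp⟩⟩
  have hextL : ∀ u, KF e u → w <:+: u → ∃ c, KF e (c :: u) := by
    intro u hu hwu
    obtain ⟨a, b, hab⟩ := hcon u hu hwu
    exact ⟨a, hab.of_infix ⟨[], [b], by simp⟩⟩
  -- a word with the fewest right extensions
  set Nr : List α → ℕ := fun u => (Finset.univ.filter (fun c => KF e (u ++ [c]))).card with hNr
  obtain ⟨z, ⟨hz, hwz⟩, hzmin⟩ : ∃ z ∈ {u : List α | KF e u ∧ w <:+: u},
      ∀ u ∈ {u : List α | KF e u ∧ w <:+: u}, Nr z ≤ Nr u := by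
    have hne : (Nr '' {u : List α | KF e u ∧ w <:+: u}).Nonempty :=
      ⟨Nr w, w, ⟨hw, List.infix_refl _⟩, rfl⟩
    obtain ⟨z, hz, hzm⟩ := Nat.sInf_mem hne
    refine ⟨z, hz, ?_⟩
    intro u hu
    rw [hzm]
    exact Nat.sInf_le ⟨u, hu, rfl⟩
  obtain ⟨b, hb⟩ := hextR z hz hwz
  set S : Set (List α) := {D | KF e D ∧ (z ++ [b]) <:+: D ∧ 2 * n0 + N ≤ D.length} with hS
  have hwzb : w <:+: z ++ [b] := hwz.trans ⟨[], [b], by simp⟩
  have hSne : S.Nonempty := by
    have : ∀ n, ∃ D, KF e D ∧ (z ++ [b]) <:+: D ∧ n ≤ D.length := by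
      intro n
      induction n with
      | zero => exact ⟨z ++ [b], hb, List.infix_refl _, Nat.zero_le _⟩
      | succ n ih =>
        obtain ⟨D, h1, h2, h3⟩ := ih
        obtain ⟨c, hc⟩ := hextR D h1 (hwzb.trans h2)
        exact ⟨D ++ [c], hc, h2.trans ⟨[], [c], by simp⟩, by simp; omega⟩
    obtain ⟨D, h1, h2, h3⟩ := this (2 * n0 + N)
    exact ⟨D, h1, h2, h3⟩
  obtain ⟨D0, ⟨hD0, ⟨x0, v0, hxv⟩, hD0len⟩, hDL, hDR⟩ := cleaning he0 hsup hle hn0 hqq
    (show q + 11 ≤ Fintype.card α by omega) S hSne (fun D hD => hD.1)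
    (fun D hD => by have := hD.2.2; omega)
    (fun D hD => hextR D hD.1 (hwzb.trans hD.2.1))
    (fun D hD c hc => ⟨hc, hD.2.1.trans ⟨[], [c], by simp⟩, by
      have := hD.2.2
      simp only [List.length_append, List.length_singleton]
      omega⟩)
    (fun D hD => hextL D hD.1 (hwzb.trans hD.2.1))
    (fun D hD c hc => ⟨hc, hD.2.1.trans ⟨[c], [], by simp⟩, by
      have := hD.2.2
      simp only [List.length_cons]
      omega⟩)
  have hG0 : Good e n0 D0 := ⟨hD0, by omega, hDL, hDR⟩
  obtain ⟨ty, hty3, htc, htL, htR⟩ := exists_typing D0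
  obtain ⟨A0, hA0⟩ := ee_large hκ (D0.length + 100)
  have hA0' := hle A0
  rw [← he] at hA0 hA0'
  have hpre := fun r => preword H he0 hsup hn0 (show 21 * K + 18 ≤ Fintype.card α by omega) hDg
    hG0 (by omega) ty htc htL htR A0 hA0 r
  choose yy vv SS lX muu ss hyl hvl hSN hEnd hvt hmu hRS using hpre
  set M' := (Finset.range N).sup (fun r => ((yy r).reverse ++ D0 ++ vv r ++ SS r).length) with hM'
  set d0 := D0.length with hd0
  set d2 := A0 + (x0 ++ z).length with hd2
  obtain ⟨wl, P0, j, l1, l2, l3, l4, l5, l6, l7⟩ :=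
    exists_lengths2 hκ hκ1 N d2 (4 * M' + 10) (by omega)
  rw [← he] at l2 l5 l6 l7
  set r := (P0 + (N - 1) * (2 * A0 + d0)) % N with hr
  have hrN : r < N := Nat.mod_lt _ (by omega)
  set U0 := (yy r).reverse ++ D0 ++ vv r ++ SS r with hU0
  have hU0M : U0.length ≤ M' := by
    rw [hM']
    exact Finset.le_sup (f := fun r => ((yy r).reverse ++ D0 ++ vv r ++ SS r).length)
      (Finset.mem_range.2 hrN)
  have hRSr := hRS r
  have hylr := hyl r
  have hvlr := hvl r
  have hEr := hEnd r
  have hmur := hmu r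
  have hvtr := hvt r
  obtain ⟨sn, hsn⟩ := hSN r
  rw [← hU0] at hRSr
  set m := (yy r).length + D0.length + (vv r).length with hm
  have hU0l : U0.length = m + (SS r).length := by
    rw [hU0, hm]
    simp only [List.length_append, List.length_reverse]
  set h := N * j with hh
  set lv := P0 - h - U0.length with hlv
  have hd2le : d2 ≤ U0.length := by
    have h1 : D0.length = (x0 ++ z).length + (1 + v0.length) := by
      rw [← hxv]
      simp only [List.length_append, List.length_cons, List.length_nil]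
      omega
    omega
  have hP0 : P0 = h + U0.length + lv := by omega
  have hlvN : N ∣ lv := by
    have h1 := Nat.div_add_mod (P0 + (N - 1) * (2 * A0 + d0)) N
    rw [← hr] at h1
    have h2 : (N - 1) * (2 * A0 + d0) + (2 * A0 + d0) = N * (2 * A0 + d0) := by
      have : N = N - 1 + 1 := by omega
      calc (N - 1) * (2 * A0 + d0) + (2 * A0 + d0) = (N - 1 + 1) * (2 * A0 + d0) := by ring
        _ = N * (2 * A0 + d0) := by rw [← this]
    have h3 : N * (j + sn + (2 * A0 + d0)) + lv =
        N * ((P0 + (N - 1) * (2 * A0 + d0)) / N) := by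
      have h4 : N * (j + sn + (2 * A0 + d0)) = h + N * sn + N * (2 * A0 + d0) := by
        rw [hh]; ring
      have h5 : (SS r).length = N * sn := hsn
      omega
    have h5 : lv = N * ((P0 + (N - 1) * (2 * A0 + d0)) / N) - N * (j + sn + (2 * A0 + d0)) := by
      omega
    rw [h5]
    exact Nat.dvd_sub (Dvd.intro _ rfl) (Dvd.intro _ rfl)
  -- the right part
  obtain ⟨hVk, hVv, hVt⟩ := hRSr.extend H hDg hRSr.lab (lam' := muu r)
    ⟨0, fun _ _ _ => rfl, Or.inr rfl⟩ lv
  set V := strw K Dg (muu r) (U0.length + 21 * K - m) lv with hV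
  have hVl : V.length = lv := strw_length _ _ _ _ _
  -- the left part
  set WX := strw K Dg (lX r) (21 * K) h with hWX
  have hWXl : WX.length = h := strw_length _ _ _ _ _
  set X := WX.reverse with hX
  have hXl : X.length = h := by rw [hX, List.length_reverse, hWXl]
  set Y := X ++ U0 ++ V with hY
  have hYl : Y.length = P0 := by
    rw [hY, List.length_append, List.length_append, hXl, hVl]
    omega
  have hYk : KF e Y := by
    rw [← KF_reverse_iff]
    have h1 := entry_list H hDg (Z := (SS r ++ V).reverse) (y := vv r) (D0 := D0.reverse)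
      (v := yy r) hEr (by
        intro i a hia
        have hi : i < (SS r ++ V).length := by
          by_contra hcc
          rw [List.getElem?_eq_none (by rw [List.length_reverse]; omega)] at hia
          exact absurd hia (by simp)
        rw [List.getElem?_reverse hi] at hia
        rw [List.length_reverse]
        set i' := (SS r ++ V).length - 1 - i with hi'
        have h2 : i' < (SS r ++ V).length := by omega
        rw [List.length_append, hVl] at h2
        obtain ⟨a', ha', ht'⟩ := hVt (m + i') (by omega) (by omega)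
        have h3 : (U0 ++ V)[m + i']? = (SS r ++ V)[i']? := by
          have e1 : U0 ++ V = ((yy r).reverse ++ D0 ++ vv r) ++ (SS r ++ V) := by
            rw [hU0]; simp only [List.append_assoc]
          have e2 : ((yy r).reverse ++ D0 ++ vv r).length = m := by
            simp only [List.length_append, List.length_reverse]
            omega
          rw [e1, List.getElem?_append_right (by omega), e2, Nat.add_sub_cancel_left]
        rw [h3, hia] at ha'
        rw [← Option.some.inj ha'] at ht'
        rw [ht', Nat.add_sub_cancel_left])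
      hvtr (by omega) (by rw [List.length_reverse, hylr]; exact hA0)
      (by
        have h2 : (SS r ++ V).reverse ++ (vv r).reverse ++ D0.reverse ++ yy r =
            (U0 ++ V).reverse := by
          rw [hU0]; simp
        rw [h2]
        exact hVk.reverse) h
    have h2 : Y.reverse = (SS r ++ V).reverse ++ (vv r).reverse ++ D0.reverse ++ yy r ++ WX := by
      rw [hY, hU0, hX]; simp
    rw [h2]
    exact h1
  have hDeq : D0 = (x0 ++ z) ++ (b :: v0) := by
    rw [← hxv]; simp
  set x := (yy r).reverse ++ x0 with hx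
  set v' := v0 ++ vv r ++ SS r with hv'
  have hUeq : U0 = (x ++ z) ++ (b :: v') := by
    rw [hU0, hDeq, hx, hv']; simp
  have hxz : (x ++ z).length = d2 := by
    rw [hx, hd2]
    simp only [List.length_append, List.length_reverse]
    omega
  set W := X ++ (x ++ z) with hW
  have hWl : W.length = wl := by
    rw [hW, List.length_append, hXl, hxz, l1]
    omega
  have hYW : Y = W ++ ((b :: v') ++ V) := by
    rw [hY, hW, hUeq]
    simp only [List.append_assoc]
  set U := Y ++ W with hU
  have hUl : U.length = P0 + wl := by rw [hU, List.length_append, hYl, hWl]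
  have hsn2 : U0.length + 21 * K - m = 21 * (K * (sn + 1)) := by
    have h1 : 21 * K * sn = 21 * (K * sn) := by ring
    have h2 : 21 * (K * (sn + 1)) = 21 * (K * sn) + 21 * K := by ring
    omega
  have hXt : ∀ i < h, ∃ c, c < N ∧ X[i]? = some (lX r c) ∧ c / 21 = (h - 1 - i) / 21 % K ∧
      ty (lX r c) = (h - 1 - i) % 3 := by
    intro i hi
    refine ⟨pl K Dg (21 * K + (h - 1 - i)), pl_lt (by omega) _ _, ?_, ?_, ?_⟩
    · rw [hX, List.getElem?_reverse (by omega), hWXl, hWX, strw_get _ _ _ _ _ _ (by omega)]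
    · rw [pl_div]
      have e1 : (21 * K + (h - 1 - i)) / 21 = (h - 1 - i) / 21 + K := by omega
      rw [e1, Nat.add_mod_right]
    · rw [hEr.lab.typ _ (pl_lt (by omega) _ _), pl_mod]
      omega
  have hVt2 : ∀ i < lv, ∃ c, c < N ∧ V[i]? = some (muu r c) ∧ c / 21 = i / 21 % K ∧
      ty (muu r c) = i % 3 := by
    intro i hi
    refine ⟨pl K Dg (U0.length + 21 * K - m + i), pl_lt (by omega) _ _, ?_, ?_, ?_⟩
    · rw [hV, strw_get _ _ _ _ _ _ hi]
    · rw [pl_div, hsn2]
      have e1 : (21 * (K * (sn + 1)) + i) / 21 = i / 21 + K * (sn + 1) := by omega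
      rw [e1, Nat.add_mul_mod_self_left]
    · rw [hRSr.lab.typ _ (pl_lt (by omega) _ _), pl_mod, hsn2]
      omega
  have hmuinj := hEr.lab.inj
  clear_value U W Y V X WX
  have hUW : ∀ i, U[P0 + i]? = W[i]? := by
    intro i
    rw [hU, List.getElem?_append_right (by omega), hYl, Nat.add_sub_cancel_left]
  have hYWi : ∀ i < wl, Y[i]? = W[i]? := by
    intro i hi
    rw [hYW, List.getElem?_append_left (by omega)]
  have hUY : ∀ i < P0, U[i]? = Y[i]? := by
    intro i hi
    rw [hU, List.getElem?_append_left (by omega)]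
  have hYX : ∀ i < h, Y[i]? = X[i]? := by
    intro i hi
    rw [hY, List.append_assoc, List.getElem?_append_left (by omega)]
  have hYV : ∀ i < lv, Y[h + U0.length + i]? = V[i]? := by
    intro i hi
    have e1 : (X ++ U0).length = h + U0.length := by rw [List.length_append, hXl]
    rw [hY, List.getElem?_append_right (by rw [e1]; omega), e1]
    congr 1
    omega
  have hYkk : ∀ p, 1 ≤ p → ∀ s, s + p + (e p + 1) ≤ P0 →
      ∃ i, i ≤ e p ∧ U[s + i]? ≠ U[s + p + i]? := by
    intro p hp s hs
    obtain ⟨i, hi, hne⟩ := hYk p hp s (by omega)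
    refine ⟨i, hi, ?_⟩
    rw [hUY _ (by omega), hUY _ (by omega)]
    exact hne
  have hYk1 : ∀ p, 1 ≤ p → e p = 0 → ∀ s, s + p < P0 → U[s]? ≠ U[s + p]? := by
    intro p hp hep s hs
    obtain ⟨i, hi, hne⟩ := hYkk p hp s (by omega)
    rw [hep] at hi
    have : i = 0 := by omega
    subst this
    simpa using hne
  have hlvpos : 1 ≤ lv := by omega
  have hjpos : 1 ≤ j := by
    rcases Nat.eq_zero_or_pos j with h0 | h0
    · have h00 : h = 0 := by rw [hh, h0, Nat.mul_zero]
      omega
    · exact h0
  obtain ⟨lv', hlv'⟩ := hlvN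
  have hlv'pos : 1 ≤ lv' := by
    rcases Nat.eq_zero_or_pos lv' with h0 | h0
    · rw [h0, Nat.mul_zero] at hlv'
      omega
    · exact h0
  have hUk : KF e U := by
    have hasm := assembly2 (γ := Option α) e hmono (fun o => o.elim 0 ty)
      (fun i => U[i]?) P0 wl h U0.length
      (by
        intro i hi
        rw [hUW, hUY i (by omega), hYWi i hi])
      (by
        intro i _
        cases U[i]? with
        | none => simp
        | some a => exact hty3 a)
      (by
        intro i hi
        obtain ⟨a, -, ha1, -, ha2⟩ := hXt i (by omega)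
        obtain ⟨c, -, hc1, -, hc2⟩ := hXt (i + 1) (by omega)
        rw [hUY i (by omega), hUY (i + 1) (by omega), hYX i (by omega), hYX (i + 1) (by omega),
          ha1, hc1]
        simp only [Option.elim_some]
        rw [ha2, hc2]
        omega)
      (by
        intro i hi1 hi2
        obtain ⟨t, rfl⟩ : ∃ t, i = h + U0.length + t := ⟨i - (h + U0.length), by omega⟩
        obtain ⟨a, -, ha1, -, ha2⟩ := hVt2 t (by omega)
        obtain ⟨c, -, hc1, -, hc2⟩ := hVt2 (t + 1) (by omega)
        rw [hUY _ (by omega), hUY _ (by omega), hYV t (by omega),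
          show h + U0.length + t + 1 = h + U0.length + (t + 1) by ring, hYV (t + 1) (by omega),
          ha1, hc1]
        simp only [Option.elim_some]
        rw [ha2, hc2]
        omega)
      (by
        obtain ⟨a, -, ha1, -, ha2⟩ := hVt2 (lv - 1) (by omega)
        obtain ⟨c, -, hc1, -, hc2⟩ := hXt 0 (by omega)
        have h1 := hUW 0
        rw [Nat.add_zero] at h1
        rw [h1, ← hYWi 0 (by omega), hYX 0 (by omega), hUY (P0 - 1) (by omega),
          show P0 - 1 = h + U0.length + (lv - 1) by omega, hYV (lv - 1) (by omega), ha1, hc1]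
        simp only [Option.elim_some]
        rw [ha2, hc2]
        have h2 : h = 3 * (7 * (K * j)) := by rw [hh, hN]; ring
        have h3 : lv = 3 * (7 * (K * lv')) := by rw [hlv', hN]; ring
        omega)
      hYkk
      (by
        intro p hp hep s hs
        rcases lt_or_ge (s + p) P0 with h1 | h1
        · exact hYk1 p hp hep s h1
        rcases lt_or_ge s P0 with h2 | h2
        · have hpq := hqq p hep
          obtain ⟨a, ha0, ha1, ha2, -⟩ := hVt2 (lv - 1 - (P0 - 1 - s)) (by omega)
          obtain ⟨c, hc0, hc1, hc2, -⟩ := hXt (s + p - P0) (by omega)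
          have h3 : U[s]? = some (muu r a) := by
            rw [hUY s h2, show s = h + U0.length + (lv - 1 - (P0 - 1 - s)) by omega,
              hYV _ (by omega), ha1]
          have h4 : U[s + p]? = some (lX r c) := by
            rw [show s + p = P0 + (s + p - P0) by omega, hUW, ← hYWi _ (by omega),
              hYX _ (by omega), hc1]
          rw [h3, h4]
          intro heq
          have hac := Option.some.inj heq
          rw [hmur a ha0] at hac
          have h5 := hmuinj _ (by omega) _ hc0 hac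
          have h6 : (lv - 1 - (P0 - 1 - s)) / 21 % K = (21 * K - 1 - (P0 - 1 - s)) / 21 := by
            rw [hlv']
            exact slot_end (by omega) hlv'pos (by omega)
          have h7 : (h - 1 - (s + p - P0)) / 21 % K = (21 * K - 1 - (s + p - P0)) / 21 := by
            rw [hh]
            exact slot_end (by omega) hjpos (by omega)
          rw [h6] at ha2
          rw [h7] at hc2
          omega
        · have h3 : U[s]? = U[s - P0]? := by
            rw [show s = P0 + (s - P0) by omega, hUW, ← hYWi _ (by omega), ← hUY _ (by omega)]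
            congr 1
            omega
          have h4 : U[s + p]? = U[s - P0 + p]? := by
            rw [show s + p = P0 + (s - P0 + p) by omega, hUW, ← hYWi _ (by omega),
              ← hUY _ (by omega)]
          rw [h3, h4]
          exact hYk1 p hp hep (s - P0) (by omega))
      (by omega) (by omega) (by omega) (by omega)
      (by
        have h1 : P0 - wl - (4 * M' + 10) ≤ P0 - h - U0.length := by omega
        have h2 := hmono _ _ h1
        omega)
      (by
        have h1 : wl - (4 * M' + 10) ≤ h - 1 := by omega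
        have h2 := hmono _ _ h1
        omega)
      (by omega)
      (by
        intro δ h1 h2
        have := l7 δ h1 h2
        omega)
    intro p hp s hs
    exact hasm p hp s (by rw [← hUl]; exact hs)
  have hzU : z <:+ U := by
    rw [hU, hW]
    refine ⟨Y ++ (X ++ x), ?_⟩
    simp only [List.append_assoc]
  have hwU : w <:+: U := hwz.trans hzU.isInfix
  -- fewer right extensions
  have hlt : Nr U < Nr z := by
    apply Finset.card_lt_card
    rw [Finset.ssubset_iff_subset_ne]
    have hsub : Finset.univ.filter (fun c => KF e (U ++ [c])) ⊆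
        Finset.univ.filter (fun c => KF e (z ++ [c])) := by
      intro c hc
      rw [Finset.mem_filter] at hc ⊢
      refine ⟨hc.1, hc.2.of_infix ?_⟩
      obtain ⟨t, ht⟩ := hzU
      refine ⟨t, [], ?_⟩
      rw [← ht]
      simp
    refine ⟨hsub, ?_⟩
    intro heq
    have hbz : b ∈ Finset.univ.filter (fun c => KF e (z ++ [c])) := by
      rw [Finset.mem_filter]
      exact ⟨Finset.mem_univ _, hb⟩
    rw [← heq, Finset.mem_filter] at hbz
    obtain ⟨i, hi, hne⟩ := hbz.2 P0 (by omega) 0 (by
      rw [l2, List.length_append, hUl, List.length_singleton]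
      omega)
    apply hne
    rw [l2] at hi
    rw [Nat.zero_add, Nat.zero_add]
    have hYi : ∀ j < P0, (U ++ [b])[j]? = Y[j]? := by
      intro j hj
      rw [List.getElem?_append_left (by omega), hUY j hj]
    rw [hYi i (by omega)]
    rcases lt_or_eq_of_le hi with hlt | heq'
    · rw [List.getElem?_append_left (by omega), hUW, hYWi i hlt]
    · have h1 : (U ++ [b])[P0 + i]? = some b := by
        rw [List.getElem?_append_right (by omega), hUl, heq', Nat.sub_self]
        rfl
      have h2 : Y[i]? = some b := by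
        rw [hYW, List.getElem?_append_right (by omega), hWl, heq', Nat.sub_self]
        rfl
      rw [h1, h2]
  have := hzmin U ⟨hUk, hwU⟩
  omega

/-- The combined bound. -/
theorem main3 {α : Type} [Fintype α] {k : ℝ} (h1 : 1 < k) (h2 : k < 2)
    (hcard : 2 * ⌊1 / (k - 1)⌋₊ + 10 ≤ Fintype.card α ∨
      ⌊1 / (k - 1)⌋₊ + 59 ≤ Fintype.card α)
    (w : List α) (hw : PowerFree k w) :
    ∃ u, MaximalPowerFree k u ∧ w <:+: u := by
  rcases hcard with hcard | hcard
  · exact main h1 h2 hcard w hw
  · rw [powerFree_iff h1] at hw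
    obtain ⟨u, hu1, hu2, hu3⟩ := main3_KF (κ := k - 1) (by linarith) (by linarith) hcard w hw
    refine ⟨u, ⟨(powerFree_iff h1 u).2 hu1, ?_⟩, hu2⟩
    intro a b hab
    rw [powerFree_iff h1] at hab
    exact hu3 a b hab

end Pool.Agent.Helper5.PH
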