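import Pool.Agent.Helper5.PH.Right

/-!
# The middle part of the word
-/

set_option autoImplicit false

namespace Pool.Agent.Helper5.PH

open Pool.Agent.Helper25.PF

lemma psi_add (u r : ℕ) : psi (u + 63 * r) = psi u := by
  unfold psi
  omega

lemma End.exists {α : Type} {K : ℕ} (hK : 1 ≤ K) {ty : α → ℕ} {v : List α}
    (hv : 21 * K ≤ v.length) (hty : ∀ i a, v[i]? = some a → ty a = psi (v.length - 1 - i))
    (hdist : ∀ i j, i < j → j < i + 21 * K → j < v.length → v[i]? ≠ v[j]?) :
    ∃ lam, End K ty v lam := by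
  obtain ⟨lam, h1, h2, h3⟩ := exists_labels hK ty v hv hty hdist
  exact ⟨lam, hv, hty, hdist, h1, h2, h3⟩

/-- The state after the entry. -/
lemma entry_RS {α : Type} {e : ℕ → ℕ} {q K : ℕ} (H : EH e q K) {D : ℕ → ℕ} (hD : Dig K D)
    {ty : α → ℕ} {y D0 v : List α} {lam : ℕ → α} (hE : End K ty v lam)
    (hy : ∀ i a, y[i]? = some a → ty a = psi (y.length - 1 - i))
    (hyl : 100 ≤ y.length) (hvl : D0.length + 100 ≤ e v.length)
    (hKF : KF e (y.reverse ++ D0 ++ v)) :
    ∃ W : List α, 21 * K ∣ W.length ∧ RS e K D ty (y.length + D0.length + v.length)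
      (y.reverse ++ D0 ++ v ++ W) (y.length + D0.length + v.length - 1) lam := by
  set m := y.length + D0.length + v.length with hm
  obtain ⟨T, hT, hlong⟩ := exists_long_mult H (m - 1)
  have hkf := entry_list H hD (Z := []) hE (by simp) hy hyl hvl (by simpa using hKF) T
  simp only [List.nil_append] at hkf
  set W := strw K D lam (21 * K) T with hW
  have hWl : W.length = T := strw_length _ _ _ _ _
  have hMl : (y.reverse ++ D0 ++ v).length = m := by
    simp only [List.length_append, List.length_reverse]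
    omega
  have hlen := hE.len
  have hK := H.hK
  have hW2 : ∀ i, m ≤ i → i < m + T → (y.reverse ++ D0 ++ v ++ W)[i]? =
      some (lam (pl K D (i + 21 * K - m))) := by
    intro i hi1 hi2
    rw [List.getElem?_append_right (by omega), hMl, hW, strw_get _ _ _ _ _ _ (by omega)]
    congr 3
    omega
  refine ⟨W, by rw [hWl]; exact hT, hkf, by omega, ?_, hE.lab, ?_, ?_, ?_⟩
  · rw [List.length_append, hMl]
    omega
  · intro i hi1 hi2
    rw [List.length_append, hMl, hWl] at hi2
    rcases Nat.lt_or_ge i m with h | h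
    · have h2 : i + 21 * K - m = 21 * K - 1 := by omega
      have h4 : (y.reverse ++ D0).length = y.length + D0.length := by simp
      rw [List.getElem?_append_left (by omega), List.getElem?_append_right (by omega), h4, h2,
        pl_row0 hD (by omega), ← hE.last]
      congr 1
      omega
    · exact hW2 i h hi2
  · intro i hi1 hi2
    rw [List.length_append, hMl, hWl] at hi2
    refine ⟨_, hW2 i hi1 hi2, ?_⟩
    rw [hE.lab.typ _ (pl_lt (by omega) D _), pl_mod]
    omega
  · intro p hp
    rw [List.length_append, hMl, hWl] at hp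
    exact hlong (m + T - (m - 1)) (by omega) p hp

/-- The middle part of the word, for every length of the right adversarial part. -/
lemma preword {α : Type} [Fintype α] [DecidableEq α] {e : ℕ → ℕ} {q K : ℕ} (H : EH e q K)
    (he0 : e 0 = 0) (hsup : ∀ a b, e a + e b ≤ e (a + b)) {n0 : ℕ} (hn0 : 80 ≤ e n0)
    (hcard : 21 * K + 18 ≤ Fintype.card α) {D : ℕ → ℕ} (hD : Dig K D) {D0 : List α}
    (hG : Good e n0 D0) (hND : 21 * K ≤ D0.length) (ty : α → ℕ)
    (htc : ∀ c, c < 3 → Fintype.card α / 3 ≤ (Finset.univ.filter (fun a => ty a = c)).card)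
    (hL : ∀ u c, ((D0.take u).toFinset.filter (fun a => ty a = c)).card ≤ (u + 2) / 3)
    (hR : ∀ u c, ((D0.reverse.take u).toFinset.filter (fun a => ty a = c)).card ≤ (u + 2) / 3)
    (A0 : ℕ) (hA0 : D0.length + 100 ≤ e A0) (r : ℕ) :
    ∃ (y v S : List α) (lamX mu : ℕ → α) (s0 : ℕ), y.length = A0 ∧ v.length = A0 + r ∧
      21 * K ∣ S.length ∧ End K ty y lamX ∧
      (∀ i a, v[i]? = some a → ty a = psi (v.length - 1 - i)) ∧
      (∀ c, c < 21 * K → mu c = lamX (21 * (K - 1 - c / 21) + c % 21)) ∧
      RS e K D ty (y.length + D0.length + v.length) (y.reverse ++ D0 ++ v ++ S) s0 mu := by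
  have hK := H.hK
  have hqK := H.hqK
  have hA0' := H.hle A0
  obtain ⟨y0, v, hy0, hv, hy0t, hvt, hy0d, hvd, hkf⟩ := growth_typed he0 hsup H.hle hn0 H.hq
    (show q < 21 * K by omega) (show 3 ∣ 21 * K from Dvd.intro (7 * K) (by ring)) hcard hG hND ty
    htc hL hR (A0 + r - 1) (A0 - 1 + 63 * r) (A0 + r) (by omega) (by omega)
  set y := y0.take A0 with hy
  have hyl : y.length = A0 := by
    rw [hy, List.length_take, hy0]
    omega
  have hyget : ∀ i, i < A0 → y[i]? = y0[i]? := by
    intro i hi
    rw [hy, List.getElem?_take_of_lt hi]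
  have hyt : ∀ i a, y[i]? = some a → ty a = psi (y.length - 1 - i) := by
    intro i a ha
    have hi : i < A0 := by
      by_contra h
      rw [List.getElem?_eq_none (by omega)] at ha
      exact absurd ha (by simp)
    rw [hyget i hi] at ha
    rw [hy0t i a ha, hyl, show A0 - 1 + 63 * r - i = A0 - 1 - i + 63 * r by omega, psi_add]
  have hvt' : ∀ i a, v[i]? = some a → ty a = psi (v.length - 1 - i) := by
    intro i a ha
    rw [hvt i a ha, hv]
  have hyd : ∀ i j, i < j → j < i + 21 * K → j < y.length → y[i]? ≠ y[j]? := by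
    intro i j h1 h2 h3
    rw [hyget i (by omega), hyget j (by omega)]
    exact hy0d i j h1 h2 (by omega)
  have hvd' : ∀ i j, i < j → j < i + 21 * K → j < v.length → v[i]? ≠ v[j]? := by
    intro i j h1 h2 h3
    exact hvd i j h1 h2 (by omega)
  obtain ⟨lam, hEv⟩ := End.exists (show 1 ≤ K by omega) (show 21 * K ≤ v.length by omega) hvt' hvd'
  obtain ⟨lamX, hEy⟩ := End.exists (show 1 ≤ K by omega) (show 21 * K ≤ y.length by omega) hyt hyd
  have hkf' : KF e (y.reverse ++ D0 ++ v) := by
    apply hkf.of_infix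
    refine ⟨(y0.drop A0).reverse, [], ?_⟩
    rw [List.append_nil]
    calc (y0.drop A0).reverse ++ (y.reverse ++ D0 ++ v)
        = ((y0.drop A0).reverse ++ y.reverse) ++ D0 ++ v := by simp only [List.append_assoc]
      _ = _ := by rw [hy, ← List.reverse_append, List.take_append_drop]
  obtain ⟨W, hW, hRS⟩ := entry_RS H hD hEv hyt (by omega)
    (hA0.trans (H.hmono _ _ (by omega))) hkf'
  -- target labelling
  have hmuLab : Lab (21 * K) ty (fun c => lamX (21 * (K - 1 - c / 21) + c % 21)) := by
    refine ⟨?_, ?_⟩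
    · intro c hc
      have h1 := hEy.lab.typ (21 * (K - 1 - c / 21) + c % 21) (by omega)
      rw [h1]
      omega
    · intro c hc c' hc' heq
      have h1 := hEy.lab.inj _ (by omega) _ (by omega) heq
      omega
  obtain ⟨mu', hmu1, hmu2, hch⟩ := chain (show 3 ∣ 21 * K from Dvd.intro (7 * K) (by ring)) ty
    (by
      intro c hc
      have h1 := htc c hc
      omega) hEv.lab hmuLab
  obtain ⟨W', s0, hW', hRS'⟩ := hRS.steer H hD hch
  refine ⟨y, v, W ++ W', lamX, mu', s0, hyl, hv, ?_, hEy, hvt', ?_, ?_⟩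
  · rw [List.length_append]
    exact Dvd.dvd.add hW hW'
  · intro c hc
    exact hmu1 c hc
  · rw [← List.append_assoc]
    exact hRS'

end Pool.Agent.Helper5.PH
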