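import Pool.Agent.Helper5.PH.Basic
import Pool.Agent.Helper5.PH.Struct

/-!
# A new stage
-/

set_option autoImplicit false

namespace Pool.Agent.Helper5.PH

lemma rep_place {γ : Type} {N : ℕ} {lam lam' : ℕ → γ}
    (hlam : ∀ c, c < N → ∀ c', c' < N → lam c = lam c' → c = c')
    (hrep : Rep N lam lam') {c c' : ℕ} (hc : c < N) (hc' : c' < N) (h : lam c = lam' c') :
    c = c' := by
  obtain ⟨P, h1, h2⟩ := hrep
  by_cases hP : c' = P
  · subst hP
    rcases h2 with h2 | h2
    · exact absurd h (h2 c hc)
    · rw [h2] at h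
      exact hlam c hc c' hc' h
  · rw [h1 c' hc' hP] at h
    exact hlam c hc c' hc' h

/-- Module SG. A new stage: one label is replaced. -/
theorem stage {γ : Type} {e : ℕ → ℕ} (hle : ∀ a, e a ≤ a)
    {K : ℕ} (hK : 2 ≤ K) {D : ℕ → ℕ} (hD : Dig K D)
    (hej : ∀ j p, 1 ≤ j → j * (21 * K) ≤ p + 20 → j ≤ e p)
    (u : ℕ → γ) (s0 s1 n b m : ℕ) (h01 : s0 ≤ s1) (hms : m ≤ s0 + b)
    (lam lam' : ℕ → γ)
    (hlam : ∀ c, c < 21 * K → ∀ c', c' < 21 * K → lam c = lam c' → c = c')
    (hlam' : ∀ c, c < 21 * K → ∀ c', c' < 21 * K → lam' c = lam' c' → c = c')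
    (hrep : Rep (21 * K) lam lam')
    (hold : ∀ i, s0 ≤ i → i < s1 → u i = lam (pl K D (i + b - m)))
    (hnew : ∀ i, s1 ≤ i → i < n → u i = lam' (pl K D (i + b - m)))
    (hlong : ∀ p, s1 - s0 ≤ 2 * p + 1 → 7 * s0 + 7 ≤ e p ∧ 25 * (21 * K) ≤ p)
    (hKF : KFn e u s1) : KFn e u n := by
  have hpl : ∀ s, pl K D s < 21 * K := fun s => pl_lt (by omega) D s
  have key : ∀ y y', s0 ≤ y → y < y' → y' < n → u y = u y' →
      pl K D (y + b - m) = pl K D (y' + b - m) := by
    intro y y' h1 h2 h3 h4
    by_cases h5 : y' < s1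
    · rw [hold y h1 (by omega), hold y' (by omega) h5] at h4
      exact hlam _ (hpl _) _ (hpl _) h4
    · by_cases h6 : y < s1
      · rw [hold y h1 h6, hnew y' (by omega) h3] at h4
        exact rep_place hlam hrep (hpl _) (hpl _) h4
      · rw [hnew y (by omega) (by omega), hnew y' (by omega) h3] at h4
        exact hlam' _ (hpl _) _ (hpl _) h4
  intro p hp s hs
  by_cases hold1 : s + p + (e p + 1) ≤ s1
  · exact hKF p hp s hold1
  by_contra hcon
  push Not at hcon
  have hep := hle p
  rcases lt_or_ge (s + e p) s0 with h1 | h1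
  · have := (hlong p (by omega)).1
    omega
  rcases Nat.lt_or_ge s s0 with h2 | h2
  · obtain ⟨h3, h4⟩ := hlong p (by omega)
    obtain ⟨j, j1, j2, j3, j4, j5⟩ := struct_run hK hD (p := p) (x := s0 + b - m)
      (L := s + e p - s0 + 1) hp (by omega) (by
        intro y hy
        have h5 := hcon (s0 + y - s) (by omega)
        have h6 := key (s0 + y) (s0 + y + p) (by omega) (by omega) (by omega) (by
          have e1 : s + (s0 + y - s) = s0 + y := by omega
          have e2 : s + p + (s0 + y - s) = s0 + y + p := by omega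
          rw [e1, e2] at h5
          exact h5)
        have e3 : s0 + y + b - m = s0 + b - m + y := by omega
        have e4 : s0 + y + p + b - m = s0 + b - m + y + p := by omega
        rw [e3, e4] at h6
        exact h6)
    have h7 := hej j p j1 j2
    have h8 : 25 ≤ j := by
      by_contra h9
      have h10 : j * (21 * K) ≤ 24 * (21 * K) := Nat.mul_le_mul_right _ (by omega)
      omega
    have h9 := j5 h8
    omega
  · obtain ⟨j, j1, j2, j3, j4, j5⟩ := struct_run hK hD (p := p) (x := s + b - m)
      (L := e p + 1) hp (by omega) (by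
        intro y hy
        have h5 := hcon y (by omega)
        have h6 := key (s + y) (s + p + y) (by omega) (by omega) (by omega) h5
        have e3 : s + y + b - m = s + b - m + y := by omega
        have e4 : s + p + y + b - m = s + b - m + y + p := by omega
        rw [e3, e4] at h6
        exact h6)
    have h7 := hej j p j1 j2
    omega

end Pool.Agent.Helper5.PH
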