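import Pool.Agent.Helper5.PH.Basic
import Pool.Agent.Helper5.PH.Lab
import Pool.Agent.Helper5.PH.Stage
import Pool.Agent.Helper5.PH.Chain
import Pool.Agent.Helper5.PH.Entry
import Pool.Agent.Helper5.PH.Digit
import Pool.Agent.Helper58.PH.GT
import Pool.Agent.Helper34.PH.TY

/-!
# The structured part: entry and stages for lists
-/

set_option autoImplicit false

namespace Pool.Agent.Helper5.PH

open Pool.Agent.Helper25.PF

/-- A piece of the structured sequence. -/
def strw {α : Type} (K : ℕ) (D : ℕ → ℕ) (lam : ℕ → α) (start T : ℕ) : List α :=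
  (List.range T).map (fun i => lam (pl K D (start + i)))

lemma strw_length {α : Type} (K : ℕ) (D : ℕ → ℕ) (lam : ℕ → α) (start T : ℕ) :
    (strw K D lam start T).length = T := by
  simp [strw]

lemma strw_get {α : Type} (K : ℕ) (D : ℕ → ℕ) (lam : ℕ → α) (start T i : ℕ) (hi : i < T) :
    (strw K D lam start T)[i]? = some (lam (pl K D (start + i))) := by
  simp [strw, hi]

/-- The hypotheses on the function `e`. -/
structure EH (e : ℕ → ℕ) (q K : ℕ) : Prop where
  hle : ∀ a, e a ≤ a
  hmono : ∀ a b, a ≤ b → e a ≤ e b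
  hlarge : ∀ m, ∃ n, m ≤ e n
  hq : ∀ p, e p = 0 → p ≤ q
  hK : 2 ≤ K
  hqK : q + 21 ≤ 21 * K
  hej : ∀ j p, 1 ≤ j → j * (21 * K) ≤ p + 20 → j ≤ e p

/-- State of the right side. -/
structure RS {α : Type} (e : ℕ → ℕ) (K : ℕ) (D : ℕ → ℕ) (ty : α → ℕ) (m : ℕ) (U : List α)
    (s0 : ℕ) (lam : ℕ → α) : Prop where
  kf : KF e U
  hm : m ≤ s0 + 1
  hs : s0 ≤ U.length
  lab : Lab (21 * K) ty lam
  vals : ∀ i, s0 ≤ i → i < U.length → U[i]? = some (lam (pl K D (i + 21 * K - m)))
  typs : ∀ i, m ≤ i → i < U.length → ∃ a, U[i]? = some a ∧ ty a = (i - m) % 3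
  long : ∀ p, U.length - s0 ≤ 2 * p + 1 → 7 * s0 + 7 ≤ e p ∧ 25 * (21 * K) ≤ p

lemma exists_long {e : ℕ → ℕ} {q K : ℕ} (H : EH e q K) (s0 : ℕ) :
    ∃ T0, ∀ T, T0 ≤ T → ∀ p, T ≤ 2 * p + 1 → 7 * s0 + 7 ≤ e p ∧ 25 * (21 * K) ≤ p := by
  obtain ⟨n1, hn1⟩ := H.hlarge (7 * s0 + 7)
  refine ⟨2 * (n1 + 25 * (21 * K)) + 2, ?_⟩
  intro T hT p hp
  have h1 : n1 ≤ p := by omega
  have h2 := H.hmono n1 p h1
  omega

lemma exists_long_mult {e : ℕ → ℕ} {q K : ℕ} (H : EH e q K) (s0 : ℕ) :
    ∃ T, 21 * K ∣ T ∧ ∀ T', T ≤ T' → ∀ p, T' ≤ 2 * p + 1 → 7 * s0 + 7 ≤ e p ∧ 25 * (21 * K) ≤ p := by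
  obtain ⟨T0, hT0⟩ := exists_long H s0
  refine ⟨21 * K * T0, Dvd.intro _ rfl, ?_⟩
  intro T' hT'
  apply hT0
  have h1 := H.hK
  have h2 : 1 * T0 ≤ 21 * K * T0 := Nat.mul_le_mul_right _ (by omega)
  omega

/-- Extension of the structured part by a new stage. -/
lemma RS.extend {α : Type} {e : ℕ → ℕ} {q K : ℕ} (H : EH e q K) {D : ℕ → ℕ} (hD : Dig K D)
    {ty : α → ℕ} {m : ℕ} {U : List α} {s0 : ℕ} {lam : ℕ → α} (h : RS e K D ty m U s0 lam)
    {lam' : ℕ → α} (hlab : Lab (21 * K) ty lam') (hrep : Rep (21 * K) lam lam') (T : ℕ) :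
    KF e (U ++ strw K D lam' (U.length + 21 * K - m) T) ∧
    (∀ i, U.length ≤ i → i < U.length + T →
      (U ++ strw K D lam' (U.length + 21 * K - m) T)[i]? =
        some (lam' (pl K D (i + 21 * K - m)))) ∧
    (∀ i, m ≤ i → i < U.length + T →
      ∃ a, (U ++ strw K D lam' (U.length + 21 * K - m) T)[i]? = some a ∧ ty a = (i - m) % 3) := by
  set W := strw K D lam' (U.length + 21 * K - m) T with hW
  have hWl : W.length = T := strw_length _ _ _ _ _
  have hK := H.hK
  have hmm := h.hm
  have hss := h.hs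
  have hvals : ∀ i, U.length ≤ i → i < U.length + T →
      (U ++ W)[i]? = some (lam' (pl K D (i + 21 * K - m))) := by
    intro i hi1 hi2
    rw [List.getElem?_append_right hi1, hW, strw_get _ _ _ _ _ _ (by omega)]
    congr 3
    omega
  have hlow : ∀ i, i < U.length → (U ++ W)[i]? = U[i]? := fun i hi =>
    List.getElem?_append_left hi
  refine ⟨?_, hvals, ?_⟩
  · rw [KF_iff_KFn, List.length_append, hWl]
    have hst := stage (γ := Option α) H.hle hK hD H.hej (fun i => (U ++ W)[i]?) s0 U.length
      (U.length + T) (21 * K) m hss (by omega) (fun c => some (lam c)) (fun c => some (lam' c))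
      (by
        intro c hc c' hc' heq
        exact h.lab.inj c hc c' hc' (Option.some.inj heq))
      (by
        intro c hc c' hc' heq
        exact hlab.inj c hc c' hc' (Option.some.inj heq))
      (by
        obtain ⟨P, hP1, hP2⟩ := hrep
        refine ⟨P, ?_, ?_⟩
        · intro c hc hcP
          simp only
          rw [hP1 c hc hcP]
        · rcases hP2 with hP2 | hP2
          · left
            intro c hc heq
            exact hP2 c hc (Option.some.inj heq)
          · right
            simp only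
            rw [hP2])
      (by
        intro i hi1 hi2
        rw [hlow i hi2]
        exact h.vals i hi1 hi2)
      (by
        intro i hi1 hi2
        exact hvals i hi1 hi2)
      h.long
      (by
        have h1 := (KF_iff_KFn e U).1 h.kf
        refine KFn.congr ?_ h1
        intro i hi
        exact (hlow i hi).symm)
    exact hst
  · intro i hi1 hi2
    rcases lt_or_ge i U.length with hi | hi
    · rw [hlow i hi]
      exact h.typs i hi1 hi
    · refine ⟨_, hvals i hi hi2, ?_⟩
      rw [hlab.typ _ (pl_lt (by omega) D _), pl_mod]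
      omega

/-- A new stage. -/
lemma RS.next {α : Type} {e : ℕ → ℕ} {q K : ℕ} (H : EH e q K) {D : ℕ → ℕ} (hD : Dig K D)
    {ty : α → ℕ} {m : ℕ} {U : List α} {s0 : ℕ} {lam : ℕ → α} (h : RS e K D ty m U s0 lam)
    {lam' : ℕ → α} (hlab : Lab (21 * K) ty lam') (hrep : Rep (21 * K) lam lam') :
    ∃ W : List α, 21 * K ∣ W.length ∧ RS e K D ty m (U ++ W) U.length lam' := by
  obtain ⟨T, hT, hlong⟩ := exists_long_mult H U.length
  obtain ⟨h1, h2, h3⟩ := h.extend H hD hlab hrep T
  have hWl : (strw K D lam' (U.length + 21 * K - m) T).length = T := strw_length _ _ _ _ _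
  have hmm := h.hm
  have hss := h.hs
  refine ⟨strw K D lam' (U.length + 21 * K - m) T, by rw [hWl]; exact hT, h1, by omega,
    by simp, hlab, ?_, ?_, ?_⟩
  · intro i hi1 hi2
    rw [List.length_append, hWl] at hi2
    exact h2 i hi1 hi2
  · intro i hi1 hi2
    rw [List.length_append, hWl] at hi2
    exact h3 i hi1 hi2
  · intro p hp
    rw [List.length_append, hWl, Nat.add_sub_cancel_left] at hp
    exact hlong T le_rfl p hp

/-- Steering along a chain of labellings. -/
lemma RS.steer {α : Type} {e : ℕ → ℕ} {q K : ℕ} (H : EH e q K) {D : ℕ → ℕ} (hD : Dig K D)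
    {ty : α → ℕ} {m : ℕ} {U : List α} {s0 : ℕ} {lam : ℕ → α} (h : RS e K D ty m U s0 lam)
    {mu : ℕ → α} (hch : Relation.ReflTransGen (Step (21 * K) ty) lam mu) :
    ∃ (W : List α) (s0' : ℕ), 21 * K ∣ W.length ∧ RS e K D ty m (U ++ W) s0' mu := by
  induction hch with
  | refl => exact ⟨[], s0, by simp, by simpa using h⟩
  | tail _ hbc ih =>
    obtain ⟨W, s0', hW, hRS⟩ := ih
    obtain ⟨W', hW', hRS'⟩ := hRS.next H hD hbc.2.1 hbc.2.2
    refine ⟨W ++ W', (U ++ W).length, ?_, ?_⟩
    · rw [List.length_append]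
      exact Dvd.dvd.add hW hW'
    · rw [← List.append_assoc]
      exact hRS'

/-- Only the labels of the places below `21 K` matter. -/
lemma RS.congr {α : Type} {e : ℕ → ℕ} {K : ℕ} (hK : 1 ≤ K) {D : ℕ → ℕ}
    {ty : α → ℕ} {m : ℕ} {U : List α} {s0 : ℕ} {lam mu : ℕ → α} (h : RS e K D ty m U s0 lam)
    (hmu : ∀ c, c < 21 * K → lam c = mu c) : RS e K D ty m U s0 mu := by
  refine ⟨h.kf, h.hm, h.hs, ⟨?_, ?_⟩, ?_, h.typs, h.long⟩
  · intro c hc
    rw [← hmu c hc]
    exact h.lab.typ c hc
  · intro c hc c' hc' heq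
    rw [← hmu c hc, ← hmu c' hc'] at heq
    exact h.lab.inj c hc c' hc' heq
  · intro i hi1 hi2
    rw [h.vals i hi1 hi2, hmu _ (pl_lt hK D _)]

/-! ### Entry -/

/-- The outer end of an adversarial part, with its labels. -/
structure End {α : Type} (K : ℕ) (ty : α → ℕ) (v : List α) (lam : ℕ → α) : Prop where
  len : 21 * K ≤ v.length
  typs : ∀ i a, v[i]? = some a → ty a = psi (v.length - 1 - i)
  dist : ∀ i j, i < j → j < i + 21 * K → j < v.length → v[i]? ≠ v[j]?
  lab : Lab (21 * K) ty lam
  last : v[v.length - 1]? = some (lam (21 * K - 1))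
  win : ∀ c, c < 21 * K → ∃ w, c / 21 * 21 ≤ w ∧ w ≤ c / 21 * 21 + 20 ∧
    v[v.length - 21 * K + w]? = some (lam c)

lemma entry_list {α : Type} {e : ℕ → ℕ} {q K : ℕ} (H : EH e q K) {D : ℕ → ℕ} (hD : Dig K D)
    {ty : α → ℕ} {Z y D0 v : List α} {lam : ℕ → α} (hE : End K ty v lam)
    (hZ : ∀ i a, Z[i]? = some a → ty a = (Z.length - 1 - i) % 3)
    (hy : ∀ i a, y[i]? = some a → ty a = psi (y.length - 1 - i))
    (hyl : 100 ≤ y.length) (hvl : D0.length + 100 ≤ e v.length)
    (hKF : KF e (Z ++ y.reverse ++ D0 ++ v)) (T : ℕ) :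
    KF e (Z ++ y.reverse ++ D0 ++ v ++ strw K D lam (21 * K) T) := by
  set W := strw K D lam (21 * K) T with hW
  have hWl : W.length = T := strw_length _ _ _ _ _
  have hK := H.hK
  have hqK := H.hqK
  set M := Z ++ y.reverse ++ D0 ++ v with hM
  set m := Z.length + y.length + D0.length + v.length with hm
  have hMl : M.length = m := by
    rw [hM]
    simp only [List.length_append, List.length_reverse]
    omega
  set u : ℕ → Option α := fun i => (M ++ W)[i]? with hu
  have hlen := hE.len
  have huM : ∀ i, i < m → u i = M[i]? := by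
    intro i hi
    exact List.getElem?_append_left (by omega)
  have huW : ∀ i, m ≤ i → i < m + T → u i = some (lam (pl K D (i + 21 * K - m))) := by
    intro i hi1 hi2
    rw [hu]
    simp only
    rw [List.getElem?_append_right (by omega), hW, strw_get _ _ _ _ _ _ (by omega)]
    congr 3
    omega
  have huZ : ∀ i, i < Z.length → u i = Z[i]? := by
    intro i hi
    rw [huM i (by omega), hM, List.append_assoc, List.append_assoc, List.getElem?_append_left hi]
  have huy : ∀ i, Z.length ≤ i → i < Z.length + y.length →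
      u i = y[y.length - 1 - (i - Z.length)]? := by
    intro i hi1 hi2
    rw [huM i (by omega), hM, List.append_assoc, List.append_assoc,
      List.getElem?_append_right hi1, List.getElem?_append_left (by simp; omega),
      List.getElem?_reverse (by omega)]
  have huv : ∀ i, Z.length + y.length + D0.length ≤ i → i < m →
      u i = v[i - (Z.length + y.length + D0.length)]? := by
    intro i hi1 hi2
    have h1 : (Z ++ y.reverse ++ D0).length = Z.length + y.length + D0.length := by
      simp only [List.length_append, List.length_reverse]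
    rw [huM i hi2, hM, List.getElem?_append_right (by omega), h1]
  rw [KF_iff_KFn, List.length_append, hWl, hMl]
  refine entry (γ := Option α) H.hle H.hmono hK hD H.hej (fun o => o.elim 0 ty) u Z.length y.length
    D0.length v.length m (m + T) rfl hvl hyl ?_ ?_ ?_ ?_ (fun c => some (lam c)) ?_ ?_ ?_ ?_
  · intro i hi
    rw [huZ i hi, List.getElem?_eq_getElem hi]
    exact hZ i _ (List.getElem?_eq_getElem hi)
  · intro i hi1 hi2
    have h1 : y.length - 1 - (i - Z.length) < y.length := by omega
    rw [huy i hi1 hi2, List.getElem?_eq_getElem h1]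
    have h2 := hy _ _ (List.getElem?_eq_getElem h1)
    simp only [Option.elim_some]
    rw [h2]
    congr 1
    omega
  · intro i hi1 hi2
    have h1 : i - (Z.length + y.length + D0.length) < v.length := by omega
    rw [huv i hi1 hi2, List.getElem?_eq_getElem h1]
    have h2 := hE.typs _ _ (List.getElem?_eq_getElem h1)
    simp only [Option.elim_some]
    rw [h2]
    congr 1
    omega
  · intro i hi1 hi2
    rw [huW i hi1 hi2]
    simp only [Option.elim_some]
    rw [hE.lab.typ _ (pl_lt (by omega) D _), pl_mod]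
    omega
  · intro c hc c' hc' heq
    exact hE.lab.inj c hc c' hc' (Option.some.inj heq)
  · intro i hi1 hi2
    rcases Nat.lt_or_ge i m with h | h
    · have h1 : i = m - 1 := by omega
      have h2 : i + 21 * K - m = 21 * K - 1 := by omega
      have h3 : i - (Z.length + y.length + D0.length) = v.length - 1 := by omega
      rw [huv i (by omega) h, h2, pl_row0 hD (by omega), h3]
      exact hE.last
    · exact huW i h hi2
  · intro p hp hep s hs
    have hpq := H.hq p hep
    rcases Nat.lt_or_ge (s + p) m with h1 | h1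
    · have h2 := (KF_iff_KFn e M).1 hKF p hp s (by rw [hMl, hep]; omega)
      obtain ⟨i, hi, hne⟩ := h2
      have hi0 : i = 0 := by omega
      subst hi0
      rw [huM s (by omega), huM (s + p) h1]
      simpa using hne
    · rcases Nat.lt_or_ge s m with h2 | h2
      · -- the earlier letter is in the last row of `v`
        have h3 : s + p - m < 21 * K := by omega
        have hc : pl K D (s + p - m + 21 * K) < 21 * K := pl_lt (by omega) D _
        obtain ⟨w, hw1, hw2, hw3⟩ := hE.win _ hc
        rw [pl_row1_div D h3] at hw1 hw2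
        rw [huW (s + p) h1 hs, show s + p + 21 * K - m = s + p - m + 21 * K by omega, ← hw3,
          huv s (by omega) h2]
        intro heq
        rcases lt_trichotomy (s - (Z.length + y.length + D0.length)) (v.length - 21 * K + w)
          with h4 | h4 | h4
        · exact hE.dist _ _ h4 (by omega) (by omega) heq
        · omega
        · exact hE.dist _ _ h4 (by omega) (by omega) heq.symm
      · rw [huW s h2 (by omega), huW (s + p) h1 hs]
        intro heq
        have h3 := hE.lab.inj _ (pl_lt (by omega) D _) _ (pl_lt (by omega) D _)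
          (Option.some.inj heq)
        obtain ⟨j, hj1, hj2, -⟩ := struct_run (x := s + 21 * K - m) (L := 1) hK hD hp le_rfl (by
          intro y hy
          have hy0 : y = 0 := by omega
          subst hy0
          rw [Nat.add_zero, h3]
          congr 1
          omega)
        have h4 : 1 * (21 * K) ≤ j * (21 * K) := Nat.mul_le_mul_right _ hj1
        omega
  · refine KFn.congr ?_ ((KF_iff_KFn e M).1 hKF) |>.mono (le_of_eq hMl.symm)
    intro i hi
    rw [huM i (by omega)]

end Pool.Agent.Helper5.PH
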